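import Mathlib
import Pool.Agent.H447R2.ML.Q3
import Pool.Agent.H447R2.ML.P2

set_option autoImplicit false

/-!
# Fermat numbers with a random amplitude: one index, and pairs of indices
-/

namespace Pool.Agent.Y867.FM

open Filter Topology MeasureTheory
open Pool.Agent.H305R2 (roughPart NN ff measurable_ff ff_nonneg ff_le_one integrableOn_ff
  mem_Ioc_log)

/-- logarithm of `a ^ (2 ^ m) + 1` -/
noncomputable def lam (a m : ℕ) : ℝ := Real.log ((a : ℝ) ^ (2 ^ m) + 1)

/-- the measure of the event of index `m` in the window `(s, t]` of log amplitudes -/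
noncomputable def mu (a m : ℕ) (s t : ℝ) : ℝ :=
  ∫ u in Set.Ioc s t, ff (2 ^ (m + 1)) (u + lam a m)

/-- the weights -/
noncomputable def wt (m : ℕ) : ℝ := ((m : ℝ) + 1) / 2 ^ m

lemma wt_pos (m : ℕ) : 0 < wt m := by unfold wt; positivity

lemma shift_set (g : ℝ → ℝ) {s t : ℝ} (h : s ≤ t) (d : ℝ) :
    ∫ u in Set.Ioc s t, g (u + d) = ∫ x in Set.Ioc (s + d) (t + d), g x := by
  rw [← intervalIntegral.integral_of_le h, ← intervalIntegral.integral_of_le (by linarith),
    intervalIntegral.integral_comp_add_right]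

lemma lam_ge {a : ℕ} (ha : 2 ≤ a) (m : ℕ) : 2 ^ m * Real.log a ≤ lam a m := by
  have ha0 : (0 : ℝ) < a := by positivity
  have h1 : 2 ^ m * Real.log a = Real.log ((a : ℝ) ^ (2 ^ m)) := by
    rw [Real.log_pow]; push_cast; ring
  rw [h1]
  exact Real.log_le_log (by positivity) (by linarith)

lemma lam_le {a : ℕ} (ha : 2 ≤ a) (m : ℕ) : lam a m ≤ 2 ^ m * Real.log a + Real.log 2 := by
  have ha0 : (0 : ℝ) < a := by positivity
  have ha1 : (1 : ℝ) ≤ a := by exact_mod_cast (by omega : 1 ≤ a)
  have h1 : 2 ^ m * Real.log a + Real.log 2 = Real.log ((a : ℝ) ^ (2 ^ m) * 2) := by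
    rw [Real.log_mul (by positivity) (by norm_num), Real.log_pow]; push_cast; ring
  rw [h1]
  refine Real.log_le_log (by positivity) ?_
  have : (1 : ℝ) ≤ (a : ℝ) ^ (2 ^ m) := one_le_pow₀ ha1
  linarith

lemma log_exp_add_one {x : ℝ} (hx : 0 ≤ x) :
    x ≤ Real.log (Real.exp x + 1) ∧ Real.log (Real.exp x + 1) ≤ x + Real.log 2 := by
  constructor
  · have h : Real.log (Real.exp x) ≤ Real.log (Real.exp x + 1) :=
      Real.log_le_log (Real.exp_pos _) (by linarith)
    rwa [Real.log_exp] at h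
  · have h1 : x + Real.log 2 = Real.log (Real.exp x * 2) := by
      rw [Real.log_mul (Real.exp_pos _).ne' (by norm_num), Real.log_exp]
    rw [h1]
    refine Real.log_le_log (by positivity) ?_
    have := Real.one_le_exp hx
    linarith

/-- one index -/
theorem mu_asymp {a : ℕ} (ha : 2 ≤ a) (s : ℝ) {l : ℝ} (hl : 0 < l) (hl1 : l ≤ 1) :
    Tendsto (fun m : ℕ => mu a m s (s + l) / wt m) atTop
      (𝓝 (Real.exp Real.eulerMascheroniConstant * Real.log 2 / Real.log a * l)) := by
  set A := Real.log a with hA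
  have ha0 : (0 : ℝ) < a := by positivity
  have hApos : 0 < A := Real.log_pos (by exact_mod_cast (by omega : 1 < a))
  set y : ℕ → ℝ := fun p => s + Real.log (Real.exp (p * (A / 2)) + 1) with hy
  have hyt : Tendsto (fun p : ℕ => y p / p) atTop (𝓝 (A / 2)) := by
    have h0 : Tendsto (fun p : ℕ => (p : ℝ)) atTop atTop := tendsto_natCast_atTop_atTop
    have hlow : Tendsto (fun p : ℕ => s / p + A / 2) atTop (𝓝 (0 + A / 2)) :=
      (h0.const_div_atTop s).add_const _
    have hup : Tendsto (fun p : ℕ => (s + Real.log 2) / p + A / 2) atTop (𝓝 (0 + A / 2)) :=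
      (h0.const_div_atTop (s + Real.log 2)).add_const _
    rw [zero_add] at hlow hup
    refine tendsto_of_tendsto_of_tendsto_of_le_of_le' hlow hup ?_ ?_
    · filter_upwards [eventually_ge_atTop 1] with p hp
      have hp0 : (0 : ℝ) < p := by exact_mod_cast hp
      have h1 := (log_exp_add_one (x := p * (A / 2)) (by positivity)).1
      rw [le_div_iff₀ hp0, hy]
      have : (s / p + A / 2) * p = s + p * (A / 2) := by field_simp
      rw [this]
      linarith
    · filter_upwards [eventually_ge_atTop 1] with p hp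
      have hp0 : (0 : ℝ) < p := by exact_mod_cast hp
      have h1 := (log_exp_add_one (x := p * (A / 2)) (by positivity)).2
      rw [div_le_iff₀ hp0, hy]
      have : ((s + Real.log 2) / p + A / 2) * p = s + Real.log 2 + p * (A / 2) := by field_simp
      rw [this]
      linarith
  have h := Pool.Agent.H447R2.ML.window_asymp_l (a := A / 2) (by positivity) hl hl1 hyt
  have hpow : Tendsto (fun m : ℕ => 2 ^ (m + 1)) atTop atTop :=
    (tendsto_pow_atTop_atTop_of_one_lt (by norm_num : 1 < 2)).comp (tendsto_add_atTop_nat 1)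
  have h2 := (h.comp hpow).mul_const (Real.log 2 / 2)
  have hl2 : 0 < Real.log 2 := Real.log_pos (by norm_num)
  have e : Real.exp Real.eulerMascheroniConstant * l / (A / 2) * (Real.log 2 / 2) =
      Real.exp Real.eulerMascheroniConstant * Real.log 2 / A * l := by
    field_simp
  rw [e] at h2
  refine h2.congr fun m => ?_
  have e1 : y (2 ^ (m + 1)) = s + lam a m := by
    simp only [hy, lam]
    congr 3
    push_cast
    have : (2 : ℝ) ^ (m + 1) * (A / 2) = ((2 ^ m : ℕ) : ℝ) * A := by push_cast; ring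
    rw [this, Real.exp_nat_mul, hA, Real.exp_log ha0]
  have e2 : mu a m s (s + l) = ∫ t in Set.Ioc (y (2 ^ (m + 1))) (y (2 ^ (m + 1)) + l),
      ff (2 ^ (m + 1)) t := by
    unfold mu
    rw [shift_set _ (by linarith), e1]
    congr 3
    ring
  simp only [Function.comp]
  rw [e2]
  have e3 : Real.log ((2 ^ (m + 1) : ℕ) : ℝ) = (m + 1) * Real.log 2 := by
    push_cast
    rw [Real.log_pow]; push_cast; ring
  rw [e3]
  unfold wt
  have hm : (0 : ℝ) < m + 1 := by positivity
  push_cast
  field_simp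
  ring

/-- the set of `x` whose `NN x = N` -/
noncomputable def cellS (N : ℕ) : Set ℝ := Set.Ioc (Real.log N) (Real.log ((N + 1 : ℕ) : ℝ))

lemma cell_len {N : ℕ} (hN : 1 ≤ N) : 1 / ((N : ℝ) + 1) ≤ Real.log ((N + 1 : ℕ) : ℝ) - Real.log N ∧
    Real.log ((N + 1 : ℕ) : ℝ) - Real.log N ≤ 1 := by
  have hN0 : (0 : ℝ) < N := by exact_mod_cast hN
  have hN1 : (1 : ℝ) ≤ N := by exact_mod_cast hN
  rw [← Real.log_div (by positivity) hN0.ne']
  constructor
  · have h3 := Real.one_sub_inv_le_log_of_pos (show (0 : ℝ) < ((N + 1 : ℕ) : ℝ) / N by positivity)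
    have h4 : 1 - (((N + 1 : ℕ) : ℝ) / N)⁻¹ = 1 / ((N : ℝ) + 1) := by push_cast; field_simp; ring
    linarith
  · have h3 := Real.log_le_sub_one_of_pos (show (0 : ℝ) < ((N + 1 : ℕ) : ℝ) / N by positivity)
    have h4 : ((N + 1 : ℕ) : ℝ) / N - 1 = 1 / N := by push_cast; field_simp; ring
    have h5 : 1 / (N : ℝ) ≤ 1 := by rw [div_le_one hN0]; exact hN1
    linarith

/-- the bound on one cell -/
lemma cell_bound {a : ℕ} (ha : 2 ≤ a) : ∃ K : ℝ, 0 < K ∧ ∃ M0 : ℕ, ∀ m m' : ℕ, M0 ≤ m' → m < m' →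
    ∀ N : ℕ, 1 ≤ N → ∫ x in cellS N, ff (2 ^ (m' + 1)) (x + (lam a m' - lam a m)) ≤
      K * (Real.log ((N + 1 : ℕ) : ℝ) - Real.log N) * wt m' := by
  obtain ⟨K, hK, hev⟩ := Pool.Agent.H447R2.ML.short_interval
  set A := Real.log a with hA
  have hl2 : 0 < Real.log 2 := Real.log_pos (by norm_num)
  have hA2 : Real.log 2 ≤ A := Real.log_le_log (by norm_num) (by exact_mod_cast ha)
  have hApos : 0 < A := by linarith
  have hpow : Tendsto (fun m : ℕ => 2 ^ (m + 1)) atTop atTop :=
    (tendsto_pow_atTop_atTop_of_one_lt (by norm_num : 1 < 2)).comp (tendsto_add_atTop_nat 1)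
  have hgrow : ∀ᶠ m : ℕ in atTop, 32 * ((m : ℝ) + 1) ^ 2 ≤ 2 ^ m / 4 * Real.log 2 := by
    have h1 : Tendsto (fun m : ℕ => (m : ℝ) ^ 2 * (1 / 2 : ℝ) ^ m) atTop (𝓝 0) :=
      tendsto_pow_const_mul_const_pow_of_abs_lt_one 2 (by rw [abs_of_pos] <;> norm_num)
    have h2 : ∀ᶠ m : ℕ in atTop, (m : ℝ) ^ 2 * (1 / 2 : ℝ) ^ m < Real.log 2 / 512 :=
      h1.eventually_lt_const (by positivity)
    filter_upwards [h2, eventually_ge_atTop 1] with m hm hm1
    have hm1' : (1 : ℝ) ≤ m := by exact_mod_cast hm1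
    have h3 : (0 : ℝ) < 2 ^ m := by positivity
    have h4 : (m : ℝ) ^ 2 * (1 / 2 : ℝ) ^ m * 2 ^ m = m ^ 2 := by
      rw [mul_assoc, ← mul_pow]; norm_num
    have h5 : (m : ℝ) ^ 2 < Real.log 2 / 512 * 2 ^ m := by
      rw [← h4]; exact mul_lt_mul_of_pos_right hm h3
    nlinarith
  obtain ⟨M0, hM0⟩ := eventually_atTop.1 ((hpow.eventually hev).and (hgrow.and
    (eventually_ge_atTop 3)))
  refine ⟨4 * K * Real.log 2 / A, by positivity, M0, fun m m' hm' hmm N hN => ?_⟩
  obtain ⟨h1, h2, h3⟩ := hM0 m' hm'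
  have hN0 : (0 : ℝ) < N := by exact_mod_cast hN
  have hN1 : (1 : ℝ) ≤ N := by exact_mod_cast hN
  obtain ⟨hc1, hc2⟩ := cell_len hN
  set h := Real.log ((N + 1 : ℕ) : ℝ) - Real.log N with hh
  have hpos : 0 < h := lt_of_lt_of_le (by positivity) hc1
  set δ := lam a m' - lam a m with hδ
  have e1 : ∫ x in cellS N, ff (2 ^ (m' + 1)) (x + δ) =
      ∫ x in Set.Ioc (Real.log N + δ) (Real.log N + δ + h), ff (2 ^ (m' + 1)) x := by
    unfold cellS
    rw [shift_set _ (by linarith)]
    congr 3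
    rw [hh]; ring
  rw [e1]
  have hpm : (2 : ℝ) ^ m * 2 ≤ 2 ^ m' := by
    rw [← pow_succ]
    exact pow_le_pow_right₀ (by norm_num) hmm
  have hδge : 2 ^ m' * A / 2 - Real.log 2 ≤ δ := by
    have h5 := lam_ge ha m'
    have h6 := lam_le ha m
    rw [← hA] at h5 h6
    have h7 : 2 ^ m * A ≤ 2 ^ m' * A / 2 := by nlinarith
    rw [hδ]; linarith
  have hlogh : - Real.log ((N + 1 : ℕ) : ℝ) ≤ Real.log h := by
    rw [← Real.log_inv]
    refine Real.log_le_log (by positivity) ?_
    rw [inv_eq_one_div]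
    push_cast
    exact hc1
  have hNN : Real.log ((N + 1 : ℕ) : ℝ) - Real.log N ≤ Real.log 2 := by
    rw [← Real.log_div (by positivity) hN0.ne']
    refine Real.log_le_log (by positivity) ?_
    rw [div_le_iff₀ hN0]
    push_cast
    linarith
  have h8 : (8 : ℝ) ≤ 2 ^ m' := by
    have : (2 : ℝ) ^ 3 ≤ 2 ^ m' := pow_le_pow_right₀ (by norm_num) h3
    norm_num at this
    exact this
  have hden : 2 ^ m' / 4 * A ≤ Real.log N + δ + Real.log h := by
    have h9 : 2 * Real.log 2 ≤ 2 ^ m' / 4 * A := by nlinarith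
    linarith
  have hden0 : 0 < 2 ^ m' / 4 * A := by positivity
  have hlq : Real.log ((2 ^ (m' + 1) : ℕ) : ℝ) = (m' + 1) * Real.log 2 := by
    push_cast
    rw [Real.log_pow]; push_cast; ring
  have hl21 : Real.log 2 ≤ 1 := by
    have := Real.log_two_lt_d9
    linarith
  have hcond : 32 * (Real.log ((2 ^ (m' + 1) : ℕ) : ℝ) *
      Real.log (Real.log ((2 ^ (m' + 1) : ℕ) : ℝ))) ≤ Real.log N + δ + Real.log h := by
    refine le_trans ?_ hden
    rw [hlq]
    have h10 : (0 : ℝ) < (m' + 1) * Real.log 2 := by positivity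
    have h11 : Real.log ((m' + 1) * Real.log 2) ≤ (m' + 1) * Real.log 2 := by
      have := Real.log_le_sub_one_of_pos h10
      linarith
    have h12 : ((m' : ℝ) + 1) * Real.log 2 ≤ m' + 1 := by nlinarith
    have h13 : ((m' : ℝ) + 1) * Real.log 2 * Real.log ((m' + 1) * Real.log 2) ≤
        (m' + 1) ^ 2 := by
      calc _ ≤ ((m' : ℝ) + 1) * Real.log 2 * ((m' + 1) * Real.log 2) := by gcongr
        _ ≤ (m' + 1) * (m' + 1) := by gcongr
        _ = _ := by ring
    calc _ ≤ 32 * ((m' : ℝ) + 1) ^ 2 := by linarith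
      _ ≤ 2 ^ m' / 4 * Real.log 2 := h2
      _ ≤ _ := by gcongr
  refine (h1 (Real.log N + δ) h hpos hc2 hcond).trans ?_
  rw [hlq]
  have h14 : (m' + 1) * Real.log 2 / (Real.log N + δ + Real.log h) ≤
      (m' + 1) * Real.log 2 / (2 ^ m' / 4 * A) := by gcongr
  calc K * h * ((m' + 1) * Real.log 2 / (Real.log N + δ + Real.log h)) ≤
      K * h * ((m' + 1) * Real.log 2 / (2 ^ m' / 4 * A)) := by gcongr
    _ = _ := by
      unfold wt
      field_simp

/-- pairs of indices -/
theorem pair_bound {a : ℕ} (ha : 2 ≤ a) (s : ℝ) : ∃ K : ℝ, 0 < K ∧ ∃ M0 : ℕ, ∀ m m' : ℕ,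
    M0 ≤ m → m < m' → ∀ t : ℝ, s ≤ t →
    ∫ u in Set.Ioc s t, ff (2 ^ (m + 1)) (u + lam a m) * ff (2 ^ (m' + 1)) (u + lam a m') ≤
      K * wt m' * mu a m (s - 1) (t + 1) := by
  obtain ⟨K, hK, M0, hcell⟩ := cell_bound ha
  have hA2 : Real.log 2 ≤ Real.log a := Real.log_le_log (by norm_num) (by exact_mod_cast ha)
  have hl2 : 0 < Real.log 2 := Real.log_pos (by norm_num)
  have hlam : Tendsto (fun m : ℕ => lam a m) atTop atTop := by
    refine tendsto_atTop_mono (lam_ge ha) ?_
    refine Tendsto.atTop_mul_const (by linarith) ?_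
    exact tendsto_pow_atTop_atTop_of_one_lt (by norm_num)
  obtain ⟨M1, hM1⟩ := eventually_atTop.1 (hlam.eventually_ge_atTop (1 - s))
  refine ⟨K, hK, max M0 M1, fun m m' hm hmm t hst => ?_⟩
  have hmM : 1 - s ≤ lam a m := hM1 m (by omega)
  set q := 2 ^ (m + 1) with hq
  set q' := 2 ^ (m' + 1) with hq'
  set δ := lam a m' - lam a m with hδ
  set L := lam a m with hL
  set g : ℝ → ℝ := fun x => ff q' (x + δ) with hg
  have hg0 : ∀ x, 0 ≤ g x := fun x => ff_nonneg _ _
  have hg1 : ∀ x, g x ≤ 1 := fun x => ff_le_one _ _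
  have hgm : Measurable g := (measurable_ff q').comp (measurable_id.add_const δ)
  have e1 : ∫ u in Set.Ioc s t, ff q (u + L) * ff q' (u + lam a m') =
      ∫ x in Set.Ioc (s + L) (t + L), ff q x * g x := by
    rw [← shift_set (fun x => ff q x * g x) hst L]
    refine setIntegral_congr_fun measurableSet_Ioc fun u _ => ?_
    simp only [hg, hδ]
    congr 2
    ring
  rw [e1]
  -- the cells
  classical
  set F : Finset ℕ := (Finset.Icc 1 ⌈Real.exp (t + L)⌉₊).filter
    (fun N => (roughPart q N).Prime ∧ s + L ≤ Real.log ((N + 1 : ℕ) : ℝ) ∧ Real.log N ≤ t + L) with hF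
  have hF1 : ∀ N ∈ F, 1 ≤ N := fun N hN => (Finset.mem_Icc.1 (Finset.mem_filter.1 hN).1).1
  have hcm : ∀ N, MeasurableSet (cellS N) := fun N => measurableSet_Ioc
  have hpt : ∀ x ∈ Set.Ioc (s + L) (t + L), ff q x * g x ≤
      ∑ N ∈ F, (cellS N).indicator g x := by
    intro x hx
    by_cases hp : (roughPart q (NN x)).Prime
    · have hx1 : 1 < x := by have := hx.1; linarith
      have hN1 : 1 ≤ NN x := by
        by_contra hcon
        have : NN x = 0 := by omega
        rw [this] at hp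
        simp [roughPart, Nat.not_prime_one] at hp
      have hmem := (mem_Ioc_log hN1 (t := x)).2 rfl
      have hNF : NN x ∈ F := by
        rw [hF, Finset.mem_filter, Finset.mem_Icc]
        refine ⟨⟨hN1, ?_⟩, hp, hx.1.le.trans hmem.2, hmem.1.le.trans hx.2⟩
        have h1 : (NN x : ℝ) ≤ Real.exp (t + L) := by
          rw [← Real.log_le_iff_le_exp (by exact_mod_cast hN1)]
          exact hmem.1.le.trans hx.2
        have h2 : (NN x : ℝ) ≤ ⌈Real.exp (t + L)⌉₊ := h1.trans (Nat.le_ceil _)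
        exact_mod_cast h2
      have h1 : ff q x * g x ≤ (cellS (NN x)).indicator g x := by
        rw [Set.indicator_of_mem (show x ∈ cellS (NN x) from hmem)]
        have := mul_le_mul_of_nonneg_right (ff_le_one q x) (hg0 x)
        linarith
      refine h1.trans ?_
      exact Finset.single_le_sum (f := fun N => (cellS N).indicator g x)
        (fun N _ => Set.indicator_nonneg (fun y _ => hg0 y) x) hNF
    · have h0 : ff q x = 0 := by unfold ff; rw [if_neg hp]
      rw [h0, zero_mul]
      exact Finset.sum_nonneg fun N _ => Set.indicator_nonneg (fun y _ => hg0 y) x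
  have hgint : ∀ S : Set ℝ, MeasurableSet S → volume S ≠ ⊤ → IntegrableOn g S := by
    intro S hS hfin
    refine Measure.integrableOn_of_bounded (M := 1) hfin hgm.aestronglyMeasurable ?_
    exact Eventually.of_forall fun x => by
      rw [Real.norm_eq_abs, abs_of_nonneg (hg0 x)]; exact hg1 x
  have hcfin : ∀ N, volume (cellS N) ≠ ⊤ := fun N => by unfold cellS; simp
  have hIgInd : ∀ N, Integrable ((cellS N).indicator g) := fun N => by
    rw [integrable_indicator_iff (hcm N)]
    exact hgint _ (hcm N) (hcfin N)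
  have step1 : ∫ x in Set.Ioc (s + L) (t + L), ff q x * g x ≤
      ∑ N ∈ F, ∫ x in cellS N, g x := by
    have h1 : ∫ x in Set.Ioc (s + L) (t + L), ff q x * g x ≤
        ∫ x in Set.Ioc (s + L) (t + L), ∑ N ∈ F, (cellS N).indicator g x := by
      refine setIntegral_mono_on ?_ ?_ measurableSet_Ioc hpt
      · refine Measure.integrableOn_of_bounded (M := 1) (by simp)
          ((measurable_ff q).mul hgm).aestronglyMeasurable ?_
        refine Eventually.of_forall fun x => ?_
        rw [Real.norm_eq_abs, abs_of_nonneg (mul_nonneg (ff_nonneg _ _) (hg0 x))]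
        exact mul_le_one₀ (ff_le_one _ _) (hg0 x) (hg1 x)
      · exact (integrable_finsetSum _ fun N _ => hIgInd N).integrableOn
    refine h1.trans ?_
    rw [integral_finsetSum _ fun N _ => (hIgInd N).integrableOn]
    refine Finset.sum_le_sum fun N _ => ?_
    calc ∫ x in Set.Ioc (s + L) (t + L), (cellS N).indicator g x ≤
        ∫ x, (cellS N).indicator g x := by
          refine setIntegral_le_integral (hIgInd N) ?_
          exact Eventually.of_forall fun x => Set.indicator_nonneg (fun y _ => hg0 y) x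
      _ = _ := integral_indicator (hcm N)
  have step2 : ∑ N ∈ F, ∫ x in cellS N, g x ≤
      ∑ N ∈ F, K * (Real.log ((N + 1 : ℕ) : ℝ) - Real.log N) * wt m' := by
    refine Finset.sum_le_sum fun N hN => ?_
    exact hcell m m' (by omega) hmm N (hF1 N hN)
  have step3 : ∑ N ∈ F, (Real.log ((N + 1 : ℕ) : ℝ) - Real.log N) ≤ mu a m (s - 1) (t + 1) := by
    have e2 : mu a m (s - 1) (t + 1) = ∫ x in Set.Ioc (s - 1 + L) (t + 1 + L), ff q x := by
      unfold mu
      exact shift_set _ (by linarith) L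
    rw [e2]
    have e3 : ∀ N ∈ F, Real.log ((N + 1 : ℕ) : ℝ) - Real.log N =
        ∫ x in Set.Ioc (s - 1 + L) (t + 1 + L), (cellS N).indicator (fun _ => (1 : ℝ)) x := by
      intro N hN
      have hN' := (Finset.mem_filter.1 hN).2
      have hN1 := hF1 N hN
      have hlen := (cell_len hN1)
      have hsub : cellS N ⊆ Set.Ioc (s - 1 + L) (t + 1 + L) := by
        unfold cellS
        exact Set.Ioc_subset_Ioc (by linarith [hN'.2.1]) (by linarith [hN'.2.2])
      rw [setIntegral_indicator (hcm N), Set.inter_eq_right.2 hsub, setIntegral_const,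
        smul_eq_mul, mul_one]
      unfold cellS
      rw [Real.volume_real_Ioc_of_le]
      have : 0 < 1 / ((N : ℝ) + 1) := by positivity
      linarith
    rw [Finset.sum_congr rfl e3, ← integral_finsetSum]
    · refine setIntegral_mono_on ?_ (integrableOn_ff q _ _) measurableSet_Ioc ?_
      · exact integrable_finsetSum _ fun N _ =>
          (Integrable.indicator (integrableOn_const (by simp)) (hcm N))
      · intro x _
        have h1 := Pool.Agent.H305R2.ind_eq_sum F hF1 x
        unfold cellS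
        rw [← h1]
        by_cases hx : NN x ∈ F
        · rw [if_pos hx]
          have hx2 := (Finset.mem_filter.1 hx).2.1
          unfold ff
          rw [if_pos hx2]
        · rw [if_neg hx]
          exact ff_nonneg _ _
    · intro N _
      exact Integrable.indicator (integrableOn_const (by simp)) (hcm N)
  calc _ ≤ _ := step1
    _ ≤ _ := step2
    _ = K * wt m' * ∑ N ∈ F, (Real.log ((N + 1 : ℕ) : ℝ) - Real.log N) := by
        rw [Finset.mul_sum]
        refine Finset.sum_congr rfl fun N _ => by ring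
    _ ≤ _ := by
        have := wt_pos m'
        gcongr

end Pool.Agent.Y867.FM
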