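import Mathlib
import Pool.Agent.Y867.FM1

set_option autoImplicit false

/-!
# Fermat numbers with a random amplitude: the tail events, in logarithmic coordinates
-/

namespace Pool.Agent.Y867.FM

open Filter Topology MeasureTheory
open Pool.Agent.H305R2 (roughPart NN ff measurable_ff ff_nonneg ff_le_one integrableOn_ff
  mem_Ioc_log)

lemma measurable_NN' : Measurable NN := Pool.Agent.H305R2.measurable_NN

/-- the event of index `m`, in terms of the logarithm of the amplitude -/
def Ev (a m : ℕ) : Set ℝ := {u | (roughPart (2 ^ (m + 1)) (NN (u + lam a m))).Prime}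

lemma measurable_Ev (a m : ℕ) : MeasurableSet (Ev a m) := by
  have h1 : Measurable fun u : ℝ => NN (u + lam a m) :=
    measurable_NN'.comp (measurable_id.add_const _)
  have h2 : MeasurableSet {n : ℕ | (roughPart (2 ^ (m + 1)) n).Prime} := trivial
  exact h1 h2

/-- the tail events -/
def Tl (a M : ℕ) : Set ℝ := {u | ∃ m : ℕ, M ≤ m ∧ u ∈ Ev a m}

lemma Tl_eq (a M : ℕ) : Tl a M = ⋃ k : ℕ, Ev a (M + k) := by
  ext u
  simp only [Tl, Set.mem_ofPred_eq, Set.mem_iUnion]
  constructor
  · rintro ⟨m, hm, hu⟩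
    exact ⟨m - M, by rwa [Nat.add_sub_cancel' hm]⟩
  · rintro ⟨k, hk⟩
    exact ⟨M + k, by omega, hk⟩

lemma measurable_Tl (a M : ℕ) : MeasurableSet (Tl a M) := by
  rw [Tl_eq]
  exact MeasurableSet.iUnion fun k => measurable_Ev a _

lemma Tl_succ (a M : ℕ) : Tl a M = Tl a (M + 1) ∪ (Ev a M \ Tl a (M + 1)) := by
  rw [Set.union_diff_self]
  ext u
  simp only [Tl, Set.mem_union, Set.mem_ofPred_eq]
  constructor
  · rintro ⟨m, hm, hu⟩
    rcases hm.eq_or_lt with rfl | h
    · exact Or.inr hu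
    · exact Or.inl ⟨m, h, hu⟩
  · rintro (⟨m, hm, hu⟩ | h)
    · exact ⟨m, by omega, hu⟩
    · exact ⟨M, le_rfl, h⟩

lemma ff_mem {a m : ℕ} {u : ℝ} (h : u ∈ Ev a m) : ff (2 ^ (m + 1)) (u + lam a m) = 1 := by
  have h' : (roughPart (2 ^ (m + 1)) (NN (u + lam a m))).Prime := h
  unfold ff
  rw [if_pos h']

lemma ff_notMem {a m : ℕ} {u : ℝ} (h : u ∉ Ev a m) : ff (2 ^ (m + 1)) (u + lam a m) = 0 := by
  have h' : ¬ (roughPart (2 ^ (m + 1)) (NN (u + lam a m))).Prime := h
  unfold ff
  rw [if_neg h']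

lemma mu_eq_measure (a m : ℕ) (s t : ℝ) : volume.real (Ev a m ∩ Set.Ioc s t) = mu a m s t := by
  have h1 : mu a m s t = ∫ u in Set.Ioc s t, (Ev a m).indicator (fun _ => (1 : ℝ)) u := by
    unfold mu
    refine setIntegral_congr_fun measurableSet_Ioc fun u _ => ?_
    by_cases h : u ∈ Ev a m
    · rw [Set.indicator_of_mem h, ff_mem h]
    · rw [Set.indicator_of_notMem h, ff_notMem h]
  rw [h1, setIntegral_indicator (measurable_Ev a m), setIntegral_const, smul_eq_mul, mul_one,
    Set.inter_comm]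

lemma pair_eq_measure (a m m' : ℕ) (s t : ℝ) :
    volume.real (Ev a m ∩ Ev a m' ∩ Set.Ioc s t) =
      ∫ u in Set.Ioc s t, ff (2 ^ (m + 1)) (u + lam a m) * ff (2 ^ (m' + 1)) (u + lam a m') := by
  have h1 : ∫ u in Set.Ioc s t, ff (2 ^ (m + 1)) (u + lam a m) *
      ff (2 ^ (m' + 1)) (u + lam a m') =
      ∫ u in Set.Ioc s t, (Ev a m ∩ Ev a m').indicator (fun _ => (1 : ℝ)) u := by
    refine setIntegral_congr_fun measurableSet_Ioc fun u _ => ?_
    by_cases h1 : u ∈ Ev a m <;> by_cases h2 : u ∈ Ev a m'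
    · rw [Set.indicator_of_mem (show u ∈ Ev a m ∩ Ev a m' from ⟨h1, h2⟩), ff_mem h1, ff_mem h2,
        mul_one]
    · rw [Set.indicator_of_notMem (fun h => h2 h.2), ff_notMem h2, mul_zero]
    · rw [Set.indicator_of_notMem (fun h => h1 h.1), ff_notMem h1, zero_mul]
    · rw [Set.indicator_of_notMem (fun h => h1 h.1), ff_notMem h1, zero_mul]
  rw [h1, setIntegral_indicator ((measurable_Ev a m).inter (measurable_Ev a m')),
    setIntegral_const, smul_eq_mul, mul_one, Set.inter_comm]

lemma mu_nonneg (a m : ℕ) (s t : ℝ) : 0 ≤ mu a m s t := by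
  rw [← mu_eq_measure]; exact measureReal_nonneg

lemma mu_add (a m : ℕ) {s t r : ℝ} (h1 : s ≤ t) (h2 : t ≤ r) :
    mu a m s r = mu a m s t + mu a m t r := by
  unfold mu
  have hint : ∀ x y : ℝ, IntervalIntegrable (fun u => ff (2 ^ (m + 1)) (u + lam a m)) volume x y := by
    intro x y
    have hm : Measurable fun u : ℝ => ff (2 ^ (m + 1)) (u + lam a m) :=
      (measurable_ff _).comp (measurable_id.add_const _)
    have hI : ∀ x y : ℝ, IntegrableOn (fun u => ff (2 ^ (m + 1)) (u + lam a m)) (Set.Ioc x y) := by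
      intro x y
      refine Measure.integrableOn_of_bounded (M := 1) (by simp) hm.aestronglyMeasurable ?_
      exact Eventually.of_forall fun u => by
        rw [Real.norm_eq_abs, abs_of_nonneg (ff_nonneg _ _)]; exact ff_le_one _ _
    exact ⟨hI x y, hI y x⟩
  rw [← intervalIntegral.integral_of_le (h1.trans h2), ← intervalIntegral.integral_of_le h1,
    ← intervalIntegral.integral_of_le h2,
    intervalIntegral.integral_add_adjacent_intervals (hint _ _) (hint _ _)]

/-- the constant -/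
noncomputable def cc (a : ℕ) : ℝ := Real.exp Real.eulerMascheroniConstant * Real.log 2 / Real.log a

lemma cc_pos {a : ℕ} (ha : 2 ≤ a) : 0 < cc a := by
  unfold cc
  have h1 : 0 < Real.log a := Real.log_pos (by exact_mod_cast (by omega : 1 < a))
  have h2 : 0 < Real.log 2 := Real.log_pos (by norm_num)
  positivity

/-- one index, windows of any length -/
theorem mu_asymp' {a : ℕ} (ha : 2 ≤ a) (n : ℕ) : ∀ (s : ℝ) {l : ℝ}, 0 < l → l ≤ n →
    Tendsto (fun m : ℕ => mu a m s (s + l) / wt m) atTop (𝓝 (cc a * l)) := by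
  induction n with
  | zero =>
    intro s l hl hl0
    exfalso
    simp at hl0
    linarith
  | succ n ih =>
    intro s l hl hln
    by_cases h1 : l ≤ 1
    · exact mu_asymp ha s hl h1
    · push Not at h1
      have e1 := mu_asymp ha s one_pos le_rfl
      have e2 := ih (s + 1) (l := l - 1) (by linarith) (by push_cast at hln; linarith)
      have e3 := e1.add e2
      have e4 : Real.exp Real.eulerMascheroniConstant * Real.log 2 / Real.log a * 1 +
          cc a * (l - 1) = cc a * l := by unfold cc; ring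
      rw [e4] at e3
      refine e3.congr fun m => ?_
      have e5 : s + 1 + (l - 1) = s + l := by ring
      rw [e5, ← add_div, ← mu_add a m (by linarith) (by linarith)]

theorem mu_asymp_all {a : ℕ} (ha : 2 ≤ a) {s t : ℝ} (h : s < t) :
    Tendsto (fun m : ℕ => mu a m s t / wt m) atTop (𝓝 (cc a * (t - s))) := by
  obtain ⟨n, hn⟩ := exists_nat_ge (t - s)
  have := mu_asymp' ha n s (l := t - s) (by linarith) hn
  rwa [add_sub_cancel] at this

/-- sums of the weights -/
noncomputable def Wt (m : ℕ) : ℝ := 2 * ((m : ℝ) + 2) / 2 ^ m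

lemma Wt_pos (m : ℕ) : 0 < Wt m := by unfold Wt; positivity

lemma Wt_sub (m : ℕ) : Wt m - Wt (m + 1) = wt m := by
  unfold Wt wt
  have : (2 : ℝ) ^ m ≠ 0 := by positivity
  rw [pow_succ]
  field_simp
  push_cast
  ring

lemma Wt_tendsto : Tendsto Wt atTop (𝓝 0) := by
  have h1 : Tendsto (fun m : ℕ => (m : ℝ) ^ 1 * (1 / 2 : ℝ) ^ m) atTop (𝓝 0) :=
    tendsto_pow_const_mul_const_pow_of_abs_lt_one 1 (by rw [abs_of_pos] <;> norm_num)
  have h2 : Tendsto (fun m : ℕ => (1 / 2 : ℝ) ^ m) atTop (𝓝 0) :=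
    tendsto_pow_atTop_nhds_zero_of_lt_one (by norm_num) (by norm_num)
  have h3 := (h1.const_mul 2).add (h2.const_mul 4)
  simp only [mul_zero, add_zero] at h3
  refine h3.congr fun m => ?_
  unfold Wt
  rw [one_div, inv_pow]
  field_simp
  ring

lemma hasSum_wt (M : ℕ) : HasSum (fun k : ℕ => wt (M + k)) (Wt M) := by
  rw [hasSum_iff_tendsto_nat_of_nonneg (fun k => (wt_pos _).le)]
  have h1 : ∀ n : ℕ, ∑ k ∈ Finset.range n, wt (M + k) = Wt M - Wt (M + n) := by
    intro n
    induction n with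
    | zero => simp
    | succ n ih =>
      rw [Finset.sum_range_succ, ih, ← Wt_sub (M + n)]
      rw [← add_assoc]
      ring
  simp only [h1]
  have h2 : Tendsto (fun n : ℕ => Wt (M + n)) atTop (𝓝 0) := by
    have := Wt_tendsto.comp (tendsto_add_atTop_nat M)
    refine this.congr fun n => ?_
    simp [add_comm]
  simpa using h2.const_sub (Wt M)

lemma antitone_nonneg {f : ℕ → ℝ} {M0 : ℕ} (h : ∀ m, M0 ≤ m → f (m + 1) ≤ f m)
    (h0 : Tendsto f atTop (𝓝 0)) : ∀ m, M0 ≤ m → 0 ≤ f m := by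
  intro m hm
  have h1 : Antitone fun k : ℕ => f (m + k) := by
    refine antitone_nat_of_succ_le fun k => ?_
    have := h (m + k) (by omega)
    rwa [add_assoc] at this
  have h2 : Tendsto (fun k : ℕ => f (m + k)) atTop (𝓝 0) := by
    have := h0.comp (tendsto_add_atTop_nat m)
    refine this.congr fun n => ?_
    simp [add_comm]
  have := h1.le_of_tendsto h2 0
  simpa using this

lemma ratio {τ : ℕ → ℝ} {L : ℝ} (h0 : Tendsto τ atTop (𝓝 0))
    (h : Tendsto (fun m => (τ m - τ (m + 1)) / wt m) atTop (𝓝 L)) :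
    Tendsto (fun m => τ m / Wt m) atTop (𝓝 L) := by
  rw [Metric.tendsto_atTop] at h ⊢
  intro ε hε
  obtain ⟨M0, hM0⟩ := h (ε / 2) (by positivity)
  refine ⟨M0, fun m hm => ?_⟩
  have hb : ∀ k, M0 ≤ k → (L - ε / 2) * wt k ≤ τ k - τ (k + 1) ∧
      τ k - τ (k + 1) ≤ (L + ε / 2) * wt k := by
    intro k hk
    have := hM0 k hk
    rw [Real.dist_eq, abs_lt] at this
    have hw := wt_pos k
    constructor
    · have h1 : L - ε / 2 ≤ (τ k - τ (k + 1)) / wt k := by linarith
      rwa [le_div_iff₀ hw] at h1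
    · have h1 : (τ k - τ (k + 1)) / wt k ≤ L + ε / 2 := by linarith
      rwa [div_le_iff₀ hw] at h1
  have hup := antitone_nonneg (f := fun k => (L + ε / 2) * Wt k - τ k) (M0 := M0)
    (fun k hk => by
      have h1 := (hb k hk).2
      rw [← Wt_sub k] at h1
      linarith) (by simpa using (Wt_tendsto.const_mul (L + ε / 2)).sub h0) m hm
  have hlo := antitone_nonneg (f := fun k => τ k - (L - ε / 2) * Wt k) (M0 := M0)
    (fun k hk => by
      have h1 := (hb k hk).1
      rw [← Wt_sub k] at h1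
      linarith) (by simpa using h0.sub (Wt_tendsto.const_mul (L - ε / 2))) m hm
  have hW := Wt_pos m
  rw [Real.dist_eq, abs_lt]
  constructor
  · have : L - ε / 2 ≤ τ m / Wt m := by rw [le_div_iff₀ hW]; linarith
    linarith
  · have : τ m / Wt m ≤ L + ε / 2 := by rw [div_le_iff₀ hW]; linarith
    linarith

/-- measure of a countable union, real form -/
lemma real_iUnion_le {B : ℕ → Set ℝ} {f : ℕ → ℝ} {S : ℝ} (hf : ∀ k, 0 ≤ f k)
    (hB : ∀ k, volume.real (B k) ≤ f k) (hfin : ∀ k, volume (B k) ≠ ⊤) (hS : HasSum f S) :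
    volume (⋃ k, B k) ≤ ENNReal.ofReal S := by
  refine (measure_iUnion_le B).trans ?_
  have h1 : ∀ k, volume (B k) ≤ ENNReal.ofReal (f k) := by
    intro k
    rw [← ENNReal.ofReal_toReal (hfin k)]
    exact ENNReal.ofReal_le_ofReal (hB k)
  refine (ENNReal.tsum_le_tsum h1).trans ?_
  rw [← ENNReal.ofReal_tsum_of_nonneg hf hS.summable, hS.tsum_eq]

/-- the tail law in logarithmic coordinates -/
theorem tail_log {a : ℕ} (ha : 2 ≤ a) {s t : ℝ} (hst : s < t) :
    Tendsto (fun M : ℕ => volume.real (Tl a M ∩ Set.Ioc s t) / Wt M) atTop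
      (𝓝 (cc a * (t - s))) ∧
    Tendsto (fun M : ℕ => volume.real (Tl a M ∩ Set.Ioc s t)) atTop (𝓝 0) := by
  obtain ⟨K, hK, M1, hpair⟩ := pair_bound ha s
  have hmu := mu_asymp_all ha hst
  have hmu3 := mu_asymp_all ha (show s - 1 < t + 1 by linarith)
  set C := cc a * (t + 1 - (s - 1)) + 1 with hC
  have hCpos : 0 < C := by
    have := cc_pos ha
    have h2 : 0 < t + 1 - (s - 1) := by linarith
    positivity
  obtain ⟨M2, hM2⟩ := eventually_atTop.1 (hmu3.eventually_lt_const (show _ < C by rw [hC]; linarith))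
  have hmu3' : ∀ m, M2 ≤ m → mu a m (s - 1) (t + 1) ≤ C * wt m := by
    intro m hm
    have := (hM2 m hm).le
    rwa [div_le_iff₀ (wt_pos m)] at this
  have hmule : ∀ m, mu a m s t ≤ mu a m (s - 1) (t + 1) := by
    intro m
    rw [mu_add a m (show s - 1 ≤ s by linarith) (show s ≤ t + 1 by linarith),
      mu_add a m (show s ≤ t by linarith) (show t ≤ t + 1 by linarith)]
    have h1 := mu_nonneg a m (s - 1) s
    have h2 := mu_nonneg a m t (t + 1)
    linarith
  have hfin : ∀ B : Set ℝ, volume (B ∩ Set.Ioc s t) ≠ ⊤ := fun B =>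
    ne_top_of_le_ne_top (by simp) (measure_mono Set.inter_subset_right)
  -- the tail tends to zero
  have htail0 : Tendsto (fun M : ℕ => volume.real (Tl a M ∩ Set.Ioc s t)) atTop (𝓝 0) := by
    have hW : Tendsto (fun M : ℕ => C * Wt M) atTop (𝓝 0) := by
      simpa using Wt_tendsto.const_mul C
    refine squeeze_zero' (Eventually.of_forall fun M => measureReal_nonneg) ?_ hW
    filter_upwards [eventually_ge_atTop M2] with M hM
    have h1 : volume (⋃ k : ℕ, Ev a (M + k) ∩ Set.Ioc s t) ≤ ENNReal.ofReal (C * Wt M) := by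
      refine real_iUnion_le (f := fun k => C * wt (M + k)) (fun k => ?_) (fun k => ?_)
        (fun k => hfin _) ((hasSum_wt M).mul_left C)
      · have := wt_pos (M + k); positivity
      · rw [mu_eq_measure]
        exact (hmule _).trans (hmu3' _ (by omega))
    rw [← Set.iUnion_inter, ← Tl_eq] at h1
    have hpos : 0 ≤ C * Wt M := by have := Wt_pos M; positivity
    exact ENNReal.toReal_le_of_le_ofReal hpos h1
  refine ⟨ratio htail0 ?_, htail0⟩
  -- differences
  have hdiff : ∀ m, volume.real (Tl a m ∩ Set.Ioc s t) - volume.real (Tl a (m + 1) ∩ Set.Ioc s t) =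
      mu a m s t - volume.real (Ev a m ∩ Tl a (m + 1) ∩ Set.Ioc s t) := by
    intro m
    have e1 : Tl a m ∩ Set.Ioc s t = (Tl a (m + 1) ∩ Set.Ioc s t) ∪
        ((Ev a m \ Tl a (m + 1)) ∩ Set.Ioc s t) := by
      rw [← Set.union_inter_distrib_right, ← Tl_succ]
    have hd : Disjoint (Tl a (m + 1) ∩ Set.Ioc s t) ((Ev a m \ Tl a (m + 1)) ∩ Set.Ioc s t) := by
      rw [Set.disjoint_left]
      rintro x ⟨h1, _⟩ ⟨⟨_, h2⟩, _⟩
      exact h2 h1
    have hm1 : MeasurableSet ((Ev a m \ Tl a (m + 1)) ∩ Set.Ioc s t) :=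
      ((measurable_Ev a m).diff (measurable_Tl a _)).inter measurableSet_Ioc
    rw [e1, measureReal_union hd hm1 (hfin _) (hfin _)]
    have e2 : Ev a m ∩ Set.Ioc s t = (Ev a m ∩ Tl a (m + 1) ∩ Set.Ioc s t) ∪
        ((Ev a m \ Tl a (m + 1)) ∩ Set.Ioc s t) := by
      rw [← Set.union_inter_distrib_right, Set.inter_union_sdiff]
    have hd2 : Disjoint (Ev a m ∩ Tl a (m + 1) ∩ Set.Ioc s t)
        ((Ev a m \ Tl a (m + 1)) ∩ Set.Ioc s t) := by
      rw [Set.disjoint_left]
      rintro x ⟨⟨_, h1⟩, _⟩ ⟨⟨_, h2⟩, _⟩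
      exact h2 h1
    rw [← mu_eq_measure, e2, measureReal_union hd2 hm1 (hfin _) (hfin _)]
    have e3 : Ev a m ∩ Tl a (m + 1) ∩ Set.Ioc s t ∪ (Ev a m \ Tl a (m + 1)) ∩ Set.Ioc s t =
      Ev a m ∩ Set.Ioc s t := e2.symm
    ring
  have hsmall : ∀ m, max M1 M2 ≤ m → volume.real (Ev a m ∩ Tl a (m + 1) ∩ Set.Ioc s t) ≤
      K * C * wt m * Wt (m + 1) := by
    intro m hm
    have hm1 : M1 ≤ m := (le_max_left _ _).trans hm
    have hm2 : M2 ≤ m := (le_max_right _ _).trans hm
    have e1 : Ev a m ∩ Tl a (m + 1) ∩ Set.Ioc s t =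
        ⋃ k : ℕ, (Ev a m ∩ Ev a (m + 1 + k) ∩ Set.Ioc s t) := by
      rw [Tl_eq, Set.inter_iUnion, Set.iUnion_inter]
    have h1 : volume (⋃ k : ℕ, (Ev a m ∩ Ev a (m + 1 + k) ∩ Set.Ioc s t)) ≤
        ENNReal.ofReal (K * C * wt m * Wt (m + 1)) := by
      refine real_iUnion_le (f := fun k => K * C * wt m * wt (m + 1 + k)) (fun k => ?_) (fun k => ?_)
        (fun k => hfin _) ((hasSum_wt (m + 1)).mul_left _)
      · have h2 := wt_pos (m + 1 + k)
        have h3 := wt_pos m
        positivity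
      · rw [pair_eq_measure]
        refine (hpair m (m + 1 + k) hm1 (by omega) t hst.le).trans ?_
        have h2 := wt_pos (m + 1 + k)
        calc K * wt (m + 1 + k) * mu a m (s - 1) (t + 1) ≤ K * wt (m + 1 + k) * (C * wt m) := by
              have := hmu3' m hm2
              gcongr
          _ = _ := by ring
    have hpos : 0 ≤ K * C * wt m * Wt (m + 1) := by
      have h2 := Wt_pos (m + 1)
      have h3 := wt_pos m
      positivity
    rw [e1]
    exact ENNReal.toReal_le_of_le_ofReal hpos h1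
  have hsmall0 : Tendsto (fun m => volume.real (Ev a m ∩ Tl a (m + 1) ∩ Set.Ioc s t) / wt m)
      atTop (𝓝 0) := by
    have hW : Tendsto (fun m : ℕ => K * C * Wt (m + 1)) atTop (𝓝 0) := by
      simpa using (Wt_tendsto.comp (tendsto_add_atTop_nat 1)).const_mul (K * C)
    refine squeeze_zero' (Eventually.of_forall fun m => ?_) ?_ hW
    · have := wt_pos m
      exact div_nonneg measureReal_nonneg this.le
    · filter_upwards [eventually_ge_atTop (max M1 M2)] with m hm
      rw [div_le_iff₀ (wt_pos m)]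
      refine (hsmall m hm).trans (le_of_eq ?_)
      ring
  have hfinal := hmu.sub hsmall0
  rw [sub_zero] at hfinal
  refine hfinal.congr fun m => ?_
  rw [hdiff m, sub_div]

end Pool.Agent.Y867.FM
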