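import Mathlib
import Pool.Agent.Y867.FM2
import Pool.Agent.H447R2.ML.P9

set_option autoImplicit false

/-!
# Fermat numbers with a random amplitude: Lebesgue measure, and the value at amplitude one
-/

namespace Pool.Agent.Y867.FM

open Filter Topology MeasureTheory
open Pool.Agent.H305R2 (roughPart NN ff measurable_ff ff_nonneg ff_le_one integrableOn_ff
  mem_Ioc_log)

lemma exp_int_bounds {S : Set ℝ} (hS : MeasurableSet S) {x y : ℝ} :
    Real.exp x * volume.real (S ∩ Set.Ioc x y) ≤ ∫ u in S ∩ Set.Ioc x y, Real.exp u ∧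
    ∫ u in S ∩ Set.Ioc x y, Real.exp u ≤ Real.exp y * volume.real (S ∩ Set.Ioc x y) := by
  have hm : MeasurableSet (S ∩ Set.Ioc x y) := hS.inter measurableSet_Ioc
  have hfin : volume (S ∩ Set.Ioc x y) ≠ ⊤ :=
    ne_top_of_le_ne_top (by simp) (measure_mono Set.inter_subset_right)
  have hint : IntegrableOn Real.exp (S ∩ Set.Ioc x y) := by
    refine IntegrableOn.mono_set ?_ Set.inter_subset_right
    exact (Real.continuous_exp.integrableOn_Icc (a := x) (b := y)).mono_set Set.Ioc_subset_Icc_self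
  have hc : ∀ c : ℝ, ∫ _u in S ∩ Set.Ioc x y, c = c * volume.real (S ∩ Set.Ioc x y) := by
    intro c
    rw [setIntegral_const, smul_eq_mul, mul_comm]
  constructor
  · rw [← hc]
    refine setIntegral_mono_on (integrableOn_const hfin) hint hm fun u hu => ?_
    exact Real.exp_le_exp.2 hu.2.1.le
  · rw [← hc]
    refine setIntegral_mono_on hint (integrableOn_const hfin) hm fun u hu => ?_
    exact Real.exp_le_exp.2 hu.2.2

lemma exp_int_split {S : Set ℝ} (hS : MeasurableSet S) {x : ℕ → ℝ} (hx : Monotone x) (n : ℕ) :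
    ∫ u in S ∩ Set.Ioc (x 0) (x n), Real.exp u =
      ∑ i ∈ Finset.range n, ∫ u in S ∩ Set.Ioc (x i) (x (i + 1)), Real.exp u := by
  induction n with
  | zero => simp
  | succ n ih =>
    rw [Finset.sum_range_succ, ← ih]
    have e : S ∩ Set.Ioc (x 0) (x (n + 1)) =
        (S ∩ Set.Ioc (x 0) (x n)) ∪ (S ∩ Set.Ioc (x n) (x (n + 1))) := by
      rw [← Set.inter_union_distrib_left,
        Set.Ioc_union_Ioc_eq_Ioc (hx (Nat.zero_le n)) (hx (Nat.le_succ n))]
    have hint : ∀ y z : ℝ, IntegrableOn Real.exp (S ∩ Set.Ioc y z) := by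
      intro y z
      refine IntegrableOn.mono_set ?_ Set.inter_subset_right
      exact (Real.continuous_exp.integrableOn_Icc (a := y) (b := z)).mono_set
        Set.Ioc_subset_Icc_self
    rw [e, setIntegral_union _ (hS.inter measurableSet_Ioc) (hint _ _) (hint _ _)]
    rw [Set.disjoint_left]
    rintro u ⟨_, h1⟩ ⟨_, h2⟩
    exact absurd h1.2 (not_le.2 h2.1)

/-- from windows to the density `e ^ u du` -/
lemma riemann {T : ℕ → Set ℝ} (hT : ∀ M, MeasurableSet (T M)) {r : ℕ → ℝ} (hr : ∀ M, 0 < r M)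
    {c : ℝ} (hc : 0 < c) (h : ∀ s t : ℝ, s < t →
      Tendsto (fun M => volume.real (T M ∩ Set.Ioc s t) / r M) atTop (𝓝 (c * (t - s))))
    {s t : ℝ} (hst : s < t) :
    Tendsto (fun M => (∫ u in T M ∩ Set.Ioc s t, Real.exp u) / r M) atTop
      (𝓝 (c * (Real.exp t - Real.exp s))) := by
  set G := c * (Real.exp t - Real.exp s) with hG
  have hGpos : 0 < G := mul_pos hc (by have := Real.exp_lt_exp.2 hst; linarith)
  rw [Metric.tendsto_atTop]
  intro ε hε
  -- choose the number of pieces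
  have hlim : Tendsto (fun k : ℕ => (Real.exp ((t - s) / k) - 1) * G) atTop (𝓝 ((Real.exp 0 - 1) * G)) := by
    refine Tendsto.mul_const _ (Tendsto.sub_const ?_ _)
    refine (Real.continuous_exp.tendsto 0).comp ?_
    exact tendsto_const_nhds.div_atTop tendsto_natCast_atTop_atTop
  rw [Real.exp_zero, sub_self, zero_mul] at hlim
  obtain ⟨k, hk, hk1⟩ := ((hlim.eventually_lt_const (show 0 < ε / 2 by positivity)).and
    (eventually_ge_atTop 1)).exists
  have hk0 : (0 : ℝ) < k := by exact_mod_cast hk1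
  set D := (t - s) / k with hD
  have hDpos : 0 < D := div_pos (by linarith) hk0
  set x : ℕ → ℝ := fun i => s + i * D with hx
  have hxm : Monotone x := by
    intro i j hij
    simp only [hx]
    have : (i : ℝ) ≤ j := by exact_mod_cast hij
    nlinarith
  have hx0 : x 0 = s := by simp [hx]
  have hxk : x k = t := by
    simp only [hx, hD]
    field_simp
    ring
  have hxs : ∀ i, x (i + 1) = x i + D := by
    intro i
    simp only [hx]
    push_cast
    ring
  have hstep : ∀ i, x i < x (i + 1) := fun i => by rw [hxs]; linarith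
  set lo := ∑ i ∈ Finset.range k, Real.exp (x i) * (c * (x (i + 1) - x i)) with hlo
  set up := ∑ i ∈ Finset.range k, Real.exp (x (i + 1)) * (c * (x (i + 1) - x i)) with hup
  have hG2 : G = ∑ i ∈ Finset.range k, c * (Real.exp (x (i + 1)) - Real.exp (x i)) := by
    rw [← Finset.mul_sum, Finset.sum_range_sub (fun i => Real.exp (x i)), hx0, hxk]
  have hloG : lo ≤ G := by
    rw [hG2, hlo]
    refine Finset.sum_le_sum fun i _ => ?_
    have h1 := Real.add_one_le_exp (x (i + 1) - x i)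
    have h2 : Real.exp (x (i + 1)) = Real.exp (x i) * Real.exp (x (i + 1) - x i) := by
      rw [← Real.exp_add]; congr 1; ring
    have h3 : Real.exp (x i) * (x (i + 1) - x i) ≤ Real.exp (x (i + 1)) - Real.exp (x i) := by
      rw [h2]
      nlinarith [Real.exp_pos (x i)]
    nlinarith
  have hupeq : up = Real.exp D * lo := by
    rw [hup, hlo, Finset.mul_sum]
    refine Finset.sum_congr rfl fun i _ => ?_
    rw [hxs i, Real.exp_add]
    ring
  have hGup : G ≤ up := by
    rw [hG2, hup]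
    refine Finset.sum_le_sum fun i _ => ?_
    have h1 := Real.add_one_le_exp (-(x (i + 1) - x i))
    have h2 : Real.exp (x i) = Real.exp (x (i + 1)) * Real.exp (-(x (i + 1) - x i)) := by
      rw [← Real.exp_add]; congr 1; ring
    have h3 : Real.exp (x (i + 1)) - Real.exp (x i) ≤ Real.exp (x (i + 1)) * (x (i + 1) - x i) := by
      rw [h2]
      nlinarith [Real.exp_pos (x (i + 1))]
    nlinarith
  have hgap : up - lo < ε / 2 := by
    have h1 : 0 ≤ Real.exp D - 1 := by have := Real.one_le_exp hDpos.le; linarith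
    have h2 : up - lo = (Real.exp D - 1) * lo := by rw [hupeq]; ring
    rw [h2]
    exact lt_of_le_of_lt (mul_le_mul_of_nonneg_left hloG h1) hk
  have hlot : Tendsto (fun M => ∑ i ∈ Finset.range k,
      Real.exp (x i) * (volume.real (T M ∩ Set.Ioc (x i) (x (i + 1))) / r M)) atTop (𝓝 lo) := by
    refine tendsto_finset_sum _ fun i _ => ?_
    exact (h _ _ (hstep i)).const_mul _
  have hupt : Tendsto (fun M => ∑ i ∈ Finset.range k,
      Real.exp (x (i + 1)) * (volume.real (T M ∩ Set.Ioc (x i) (x (i + 1))) / r M)) atTop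
        (𝓝 up) := by
    refine tendsto_finset_sum _ fun i _ => ?_
    exact (h _ _ (hstep i)).const_mul _
  obtain ⟨M0, hM0⟩ := eventually_atTop.1
    ((hlot.eventually_const_lt (show lo - ε / 2 < lo by linarith)).and
    (hupt.eventually_lt_const (show up < up + ε / 2 by linarith)))
  refine ⟨M0, fun M hM => ?_⟩
  obtain ⟨h1, h2⟩ := hM0 M hM
  have hsplit : (∫ u in T M ∩ Set.Ioc s t, Real.exp u) / r M = ∑ i ∈ Finset.range k,
      (∫ u in T M ∩ Set.Ioc (x i) (x (i + 1)), Real.exp u) / r M := by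
    have := exp_int_split (hT M) hxm k
    rw [hx0, hxk] at this
    rw [this, Finset.sum_div]
  have h3 : ∑ i ∈ Finset.range k,
      Real.exp (x i) * (volume.real (T M ∩ Set.Ioc (x i) (x (i + 1))) / r M) ≤
      (∫ u in T M ∩ Set.Ioc s t, Real.exp u) / r M := by
    rw [hsplit]
    refine Finset.sum_le_sum fun i _ => ?_
    rw [← mul_div_assoc]
    exact div_le_div_of_nonneg_right (exp_int_bounds (hT M)).1 (hr M).le
  have h4 : (∫ u in T M ∩ Set.Ioc s t, Real.exp u) / r M ≤ ∑ i ∈ Finset.range k,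
      Real.exp (x (i + 1)) * (volume.real (T M ∩ Set.Ioc (x i) (x (i + 1))) / r M) := by
    rw [hsplit]
    refine Finset.sum_le_sum fun i _ => ?_
    rw [← mul_div_assoc]
    exact div_le_div_of_nonneg_right (exp_int_bounds (hT M)).2 (hr M).le
  rw [Real.dist_eq, abs_lt]
  constructor <;> linarith

/-- The `2 ^ (m + 1)`-rough part of the integer part of `β (a ^ (2 ^ m) + 1)`. -/
noncomputable def G (a m : ℕ) (β : ℝ) : ℕ := roughPart (2 ^ (m + 1)) ⌊β * ((a : ℝ) ^ (2 ^ m) + 1)⌋₊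

/-- the exceptional amplitudes, for which one of the products is an integer -/
def Ex (a : ℕ) : Set ℝ := {β | ∃ m n : ℕ, β * ((a : ℝ) ^ (2 ^ m) + 1) = n}

lemma Ex_null (a : ℕ) : volume (Ex a) = 0 := by
  refine Set.Countable.measure_zero ?_ volume
  have h1 : Ex a = ⋃ z : ℕ × ℕ, {β : ℝ | β * ((a : ℝ) ^ (2 ^ z.1) + 1) = z.2} := by
    ext β
    simp only [Ex, Set.mem_ofPred_eq, Set.mem_iUnion, Prod.exists]
  rw [h1]
  refine Set.countable_iUnion fun z => ?_
  refine Set.Subsingleton.countable ?_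
  intro β hβ γ hγ
  simp only [Set.mem_ofPred_eq] at hβ hγ
  have hpos : (0 : ℝ) < (a : ℝ) ^ (2 ^ z.1) + 1 := by positivity
  exact mul_right_cancel₀ hpos.ne' (hβ.trans hγ.symm)

lemma G_eq {a m : ℕ} {β : ℝ} (hβ : 0 < β) (hex : β ∉ Ex a) :
    G a m β = roughPart (2 ^ (m + 1)) (NN (Real.log β + lam a m)) := by
  have hpos : (0 : ℝ) < (a : ℝ) ^ (2 ^ m) + 1 := by positivity
  have h1 : Real.exp (Real.log β + lam a m) = β * ((a : ℝ) ^ (2 ^ m) + 1) := by
    unfold lam
    rw [Real.exp_add, Real.exp_log hβ, Real.exp_log hpos]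
  unfold G NN
  rw [h1]
  congr 1
  have hx : 0 < β * ((a : ℝ) ^ (2 ^ m) + 1) := by positivity
  have h2 : ⌈β * ((a : ℝ) ^ (2 ^ m) + 1)⌉₊ = ⌊β * ((a : ℝ) ^ (2 ^ m) + 1)⌋₊ + 1 := by
    rw [Nat.ceil_eq_iff (Nat.succ_ne_zero _)]
    constructor
    · rw [Nat.succ_sub_one]
      exact lt_of_le_of_ne (Nat.floor_le hx.le) fun h => hex ⟨m, _, h.symm⟩
    · push_cast
      exact (Nat.lt_floor_add_one _).le
  rw [h2, Nat.add_sub_cancel]

/-- The amplitudes in `(b₀, b₁]` with a prime of index at least `M`. -/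
def Bd (a M : ℕ) (b₀ b₁ : ℝ) : Set ℝ :=
  {β | β ∈ Set.Ioc b₀ b₁ ∧ ∃ m : ℕ, M ≤ m ∧ (G a m β).Prime}

lemma measure_Bd (a M : ℕ) {b₀ b₁ : ℝ} (h0 : 0 < b₀) (h1 : b₀ < b₁) :
    volume.real (Bd a M b₀ b₁) =
      ∫ u in Tl a M ∩ Set.Ioc (Real.log b₀) (Real.log b₁), Real.exp u := by
  have hb1 : 0 < b₁ := h0.trans h1
  set S := Tl a M ∩ Set.Ioc (Real.log b₀) (Real.log b₁) with hS
  have hSm : MeasurableSet S := (measurable_Tl a M).inter measurableSet_Ioc
  have h2 : volume.real (Real.exp '' S) = ∫ u in S, Real.exp u := by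
    have h3 := integral_image_eq_integral_abs_deriv_smul hSm
      (fun x _ => (Real.hasDerivAt_exp x).hasDerivWithinAt) Real.exp_injective.injOn
      (fun _ => (1 : ℝ))
    rw [setIntegral_const, smul_eq_mul, mul_one] at h3
    rw [h3]
    refine setIntegral_congr_fun hSm fun u _ => ?_
    simp [abs_of_pos (Real.exp_pos u)]
  rw [← h2]
  refine measureReal_congr ?_
  have hex : ∀ᵐ β : ℝ, β ∉ Ex a := by
    rw [ae_iff]
    simpa using Ex_null a
  filter_upwards [hex] with β hβ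
  apply propext
  change (β ∈ Bd a M b₀ b₁) ↔ (β ∈ Real.exp '' S)
  constructor
  · rintro ⟨⟨hb0, hb1'⟩, m, hm, hp⟩
    have hpos : 0 < β := h0.trans hb0
    refine ⟨Real.log β, ⟨⟨m, hm, ?_⟩, ?_, ?_⟩, Real.exp_log hpos⟩
    · rw [G_eq hpos hβ] at hp
      exact hp
    · exact Real.log_lt_log h0 hb0
    · exact Real.log_le_log hpos hb1'
  · rintro ⟨u, ⟨⟨m, hm, hu⟩, h3, h4⟩, rfl⟩
    have hpos := Real.exp_pos u
    refine ⟨⟨?_, ?_⟩, m, hm, ?_⟩
    · rwa [← Real.log_lt_iff_lt_exp h0]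
    · rwa [← Real.le_log_iff_exp_le hb1]
    · rw [G_eq hpos hβ, Real.log_exp]
      exact hu

/-- the tail law -/
theorem tail_law {a : ℕ} (ha : 2 ≤ a) {b₀ b₁ : ℝ} (h0 : 0 < b₀) (h1 : b₀ < b₁) :
    Tendsto (fun M : ℕ => volume.real (Bd a M b₀ b₁) / (b₁ - b₀) * (2 ^ M / M)) atTop
      (𝓝 (2 * Real.exp Real.eulerMascheroniConstant * Real.log 2 / Real.log a)) := by
  have hb1 : 0 < b₁ := h0.trans h1
  have h2 := riemann (fun M => measurable_Tl a M) Wt_pos (cc_pos ha)
    (fun s t hst => (tail_log ha hst).1) (Real.log_lt_log h0 h1)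
  rw [Real.exp_log h0, Real.exp_log hb1] at h2
  have h3 : Tendsto (fun M : ℕ => Wt M * (2 ^ M / M)) atTop (𝓝 2) := by
    have h4 : Tendsto (fun M : ℕ => 2 + 4 / (M : ℝ)) atTop (𝓝 (2 + 0)) :=
      Tendsto.const_add _ (tendsto_const_nhds.div_atTop tendsto_natCast_atTop_atTop)
    rw [add_zero] at h4
    refine h4.congr' ?_
    filter_upwards [eventually_ge_atTop 1] with M hM
    have hM0 : (0 : ℝ) < M := by exact_mod_cast hM
    unfold Wt
    field_simp
    ring
  have h5 := (h2.mul h3).div_const (b₁ - b₀)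
  have hb : b₁ - b₀ ≠ 0 := by linarith
  have e : cc a * (b₁ - b₀) * 2 / (b₁ - b₀) =
      2 * Real.exp Real.eulerMascheroniConstant * Real.log 2 / Real.log a := by
    unfold cc
    field_simp
  rw [e] at h5
  refine h5.congr fun M => ?_
  rw [measure_Bd a M h0 h1]
  have hW := (Wt_pos M).ne'
  field_simp

/-- almost every amplitude gives only finitely many primes -/
theorem ae_finite {a : ℕ} (ha : 2 ≤ a) :
    ∀ᵐ β : ℝ, 0 < β → {m : ℕ | (G a m β).Prime}.Finite := by
  have hex : ∀ᵐ β : ℝ, β ∉ Ex a := by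
    rw [ae_iff]
    simpa using Ex_null a
  have hlog : ∀ᵐ u : ℝ, ∃ M : ℕ, u ∉ Tl a M := by
    rw [ae_iff]
    have e1 : {u : ℝ | ¬ ∃ M : ℕ, u ∉ Tl a M} = ⋂ M : ℕ, Tl a M := by
      ext u
      simp
    rw [e1]
    have e2 : (⋂ M : ℕ, Tl a M) = ⋃ n : ℕ, ((⋂ M : ℕ, Tl a M) ∩ Set.Ioc (-(n : ℝ)) n) := by
      rw [← Set.inter_iUnion]
      refine (Set.inter_eq_left.2 ?_).symm
      intro u _
      obtain ⟨n, hn⟩ := exists_nat_gt |u|
      rw [Set.mem_iUnion]
      refine ⟨n, ?_, ?_⟩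
      · have := neg_abs_le u; linarith
      · have := le_abs_self u; linarith
    rw [e2, measure_iUnion_null_iff]
    intro n
    rcases Nat.eq_zero_or_pos n with rfl | hn
    · simp
    have hn0 : -(n : ℝ) < n := by
      have : (0 : ℝ) < n := by exact_mod_cast hn
      linarith
    have h1 := (tail_log ha hn0).2
    have hfin : volume ((⋂ M : ℕ, Tl a M) ∩ Set.Ioc (-(n : ℝ)) n) ≠ ⊤ :=
      ne_top_of_le_ne_top (by simp) (measure_mono Set.inter_subset_right)
    have h2 : volume.real ((⋂ M : ℕ, Tl a M) ∩ Set.Ioc (-(n : ℝ)) n) ≤ 0 := by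
      refine ge_of_tendsto' h1 fun M => ?_
      refine measureReal_mono ?_ ?_
      · exact Set.inter_subset_inter_left _ (Set.iInter_subset _ M)
      · exact ne_top_of_le_ne_top (by simp) (measure_mono Set.inter_subset_right)
    have h3 : volume.real ((⋂ M : ℕ, Tl a M) ∩ Set.Ioc (-(n : ℝ)) n) = 0 :=
      le_antisymm h2 measureReal_nonneg
    exact (measureReal_eq_zero_iff hfin).1 h3
  have h := Pool.Agent.H447R2.ML.ae_exp1 (P := fun β => ∃ M : ℕ, Real.log β ∉ Tl a M) (by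
    filter_upwards [hlog] with u hu
    rwa [Real.log_exp])
  filter_upwards [hex, h] with β hβ h2 hpos
  obtain ⟨M, hM⟩ := h2 hpos
  refine (Set.finite_Iio M).subset ?_
  intro m hm
  rw [Set.mem_Iio]
  by_contra hcon
  push Not at hcon
  refine hM ⟨m, hcon, ?_⟩
  have hm' : (G a m β).Prime := hm
  rw [G_eq hpos hβ] at hm'
  exact hm'

/-- every prime factor of `a ^ (2 ^ m) + 1`, `a` even, exceeds `2 ^ (m + 1)` -/
lemma lt_of_dvd {a m r : ℕ} (ha : 2 ∣ a) (hr : r.Prime) (h : r ∣ a ^ (2 ^ m) + 1) :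
    2 ^ (m + 1) < r := by
  haveI := Fact.mk hr
  have hr2 : r ≠ 2 := by
    rintro rfl
    have h1 : 2 ∣ a ^ (2 ^ m) := dvd_pow ha (by positivity)
    have h2 : 2 ∣ 1 := (Nat.dvd_add_right h1).1 h
    omega
  have h1 : (a : ZMod r) ^ (2 ^ m) = -1 := by
    have : ((a ^ (2 ^ m) + 1 : ℕ) : ZMod r) = 0 := (ZMod.natCast_eq_zero_iff _ _).2 h
    push_cast at this
    exact eq_neg_of_add_eq_zero_left this
  haveI : Fact (2 < r) := ⟨lt_of_le_of_ne hr.two_le hr2.symm⟩
  have h2 : ¬ (a : ZMod r) ^ (2 ^ m) = 1 := by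
    rw [h1]
    exact ZMod.neg_one_ne_one
  have h3 : (a : ZMod r) ^ (2 ^ (m + 1)) = 1 := by
    rw [pow_succ, pow_mul, h1]
    norm_num
  have h4 : orderOf (a : ZMod r) = 2 ^ (m + 1) := orderOf_eq_prime_pow h2 h3
  have h5 : (a : ZMod r) ≠ 0 := by
    intro h0
    rw [h0, zero_pow (by positivity)] at h3
    exact zero_ne_one h3
  have h6 : orderOf (a : ZMod r) ∣ r - 1 := ZMod.orderOf_dvd_card_sub_one h5
  rw [h4] at h6
  have h7 : 2 ^ (m + 1) ≤ r - 1 := Nat.le_of_dvd (by have := hr.two_le; omega) h6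
  have := hr.two_le
  omega

lemma roughPart_self {p m : ℕ} (hm : m ≠ 0) (h : ∀ q : ℕ, q.Prime → q ∣ m → p < q) :
    roughPart p m = m := by
  unfold roughPart
  have h2 : m.primeFactorsList.filter (fun r => p < r) = m.primeFactorsList := by
    rw [List.filter_eq_self]
    intro r hr
    exact decide_eq_true (h r (Nat.prime_of_mem_primeFactorsList hr)
      (Nat.dvd_of_mem_primeFactorsList hr))
  rw [h2]
  exact Nat.prod_primeFactorsList hm

/-- the value at amplitude one -/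
lemma G_one {a : ℕ} (ha : 2 ∣ a) (m : ℕ) : G a m 1 = a ^ (2 ^ m) + 1 := by
  unfold G
  have h1 : ⌊(1 : ℝ) * ((a : ℝ) ^ (2 ^ m) + 1)⌋₊ = a ^ (2 ^ m) + 1 := by
    rw [one_mul]
    have : (a : ℝ) ^ (2 ^ m) + 1 = ((a ^ (2 ^ m) + 1 : ℕ) : ℝ) := by push_cast; ring
    rw [this, Nat.floor_natCast]
  rw [h1]
  exact roughPart_self (Nat.succ_ne_zero _)
    fun q hq hd => lt_of_dvd ha hq hd

end Pool.Agent.Y867.FM
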