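import Mathlib
import Pool.Agent.Y867.FM3

set_option autoImplicit false

/-!
# Fermat numbers with a random amplitude: an explicit bound for the indices `m ≥ 31`
-/

namespace Pool.Agent.Y867.FM

open Filter Topology MeasureTheory
open Pool.Agent.H305R2 (roughPart SM SMz mem_SMz SM_pos VV ZZ sum_le_VV tail_le VV_nonneg ZZ_nonneg
  sum_rough_eq)

/-- the number of primes in `(N, 2N]` -/
lemma primes_dyadic (N : ℕ) :
    (((Finset.Ioc N (2 * N)).filter Nat.Prime).card : ℝ) * Real.log N ≤ N * Real.log 4 := by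
  rcases Nat.eq_zero_or_pos N with rfl | hN
  · simp
  set P := (Finset.Ioc N (2 * N)).filter Nat.Prime with hP
  have hdvd : ∏ p ∈ P, p ∣ N.centralBinom := by
    refine Finset.prod_primes_dvd _ (fun p hp => (Finset.mem_filter.1 hp).2.prime) fun p hp => ?_
    obtain ⟨h1, hpp⟩ := Finset.mem_filter.1 hp
    rw [Finset.mem_Ioc] at h1
    have h2 : p ∣ (2 * N).factorial := (hpp.dvd_factorial).2 h1.2
    have h3 : ¬ p ∣ N.factorial := fun h => by
      have := (hpp.dvd_factorial).1 h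
      omega
    have h4 : N.centralBinom * N.factorial * N.factorial = (2 * N).factorial := by
      have := Nat.choose_mul_factorial_mul_factorial (show N ≤ 2 * N by omega)
      rw [show 2 * N - N = N by omega] at this
      rw [Nat.centralBinom_eq_two_mul_choose]
      exact this
    rw [← h4] at h2
    rcases hpp.dvd_mul.1 h2 with h5 | h5
    · rcases hpp.dvd_mul.1 h5 with h6 | h6
      · exact h6
      · exact absurd h6 h3
    · exact absurd h5 h3
  have hle : N ^ P.card ≤ 4 ^ N := by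
    calc N ^ P.card = ∏ _p ∈ P, N := by rw [Finset.prod_const]
      _ ≤ ∏ p ∈ P, p := Finset.prod_le_prod' fun p hp => by
          have := (Finset.mem_Ioc.1 (Finset.mem_filter.1 hp).1).1
          omega
      _ ≤ N.centralBinom := Nat.le_of_dvd (Nat.centralBinom_pos N) hdvd
      _ ≤ 2 ^ (2 * N) := by
          rw [Nat.centralBinom_eq_two_mul_choose]
          exact Nat.choose_le_two_pow _ _
      _ = 4 ^ N := by rw [pow_mul]; norm_num
  have hN0 : (0 : ℝ) < N := by exact_mod_cast hN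
  have h5 : ((N : ℝ)) ^ P.card ≤ 4 ^ N := by exact_mod_cast hle
  have h6 := Real.log_le_log (by positivity) h5
  rw [Real.log_pow, Real.log_pow] at h6
  exact h6

lemma VV_step {j : ℕ} (hj : 4 ≤ j) :
    VV (2 ^ (j + 1)) ≤ VV (2 ^ j) * ((j : ℝ) / (j - 1)) ^ 2 := by
  have hj4 : (4 : ℝ) ≤ j := by exact_mod_cast hj
  have hj0 : (0 : ℝ) < j := by linarith
  set N := 2 ^ j with hN
  have hNr : ((N : ℕ) : ℝ) = 2 ^ j := by rw [hN]; push_cast; rfl
  have h2N : 2 ^ (j + 1) = 2 * N := by rw [hN, pow_succ]; ring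
  rw [h2N]
  have hsplit : (Finset.Icc 1 (2 * N)).filter Nat.Prime =
      (Finset.Icc 1 N).filter Nat.Prime ∪ (Finset.Ioc N (2 * N)).filter Nat.Prime := by
    rw [← Finset.filter_union]
    congr 1
    ext x
    simp only [Finset.mem_union, Finset.mem_Icc, Finset.mem_Ioc]
    omega
  have hdisj : Disjoint ((Finset.Icc 1 N).filter Nat.Prime)
      ((Finset.Ioc N (2 * N)).filter Nat.Prime) := by
    rw [Finset.disjoint_left]
    intro x hx hx2
    have h1 := (Finset.mem_Icc.1 (Finset.mem_filter.1 hx).1).2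
    have h2 := (Finset.mem_Ioc.1 (Finset.mem_filter.1 hx2).1).1
    omega
  have hVV : VV (2 * N) = VV N *
      ∏ r ∈ (Finset.Ioc N (2 * N)).filter Nat.Prime, (1 - (r : ℝ)⁻¹)⁻¹ := by
    unfold VV
    rw [hsplit, Finset.prod_union hdisj]
  rw [hVV]
  refine mul_le_mul_of_nonneg_left ?_ (VV_nonneg N)
  set k := ((Finset.Ioc N (2 * N)).filter Nat.Prime).card with hk
  have h16 : (16 : ℝ) ≤ 2 ^ j := by
    have : (2 : ℝ) ^ 4 ≤ 2 ^ j := pow_le_pow_right₀ (by norm_num) hj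
    norm_num at this
    exact this
  have hNpos : (0 : ℝ) < 2 ^ j := by positivity
  have hfac : ∀ r ∈ (Finset.Ioc N (2 * N)).filter Nat.Prime,
      (1 - (r : ℝ)⁻¹)⁻¹ ≤ Real.exp (1 / (2 ^ j - 1)) := by
    intro r hr
    have h1 := (Finset.mem_Ioc.1 (Finset.mem_filter.1 hr).1).1
    have h2 : (2 : ℝ) ^ j ≤ r := by rw [← hNr]; exact_mod_cast h1.le
    have hr0 : (0 : ℝ) < r := by linarith
    have h3 : (1 - (r : ℝ)⁻¹)⁻¹ = 1 + 1 / (r - 1) := by
      have : (r : ℝ) - 1 ≠ 0 := by linarith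
      field_simp
      ring
    rw [h3]
    have h4 : 1 / ((r : ℝ) - 1) ≤ 1 / (2 ^ j - 1) := by
      apply one_div_le_one_div_of_le <;> linarith
    have h5 := Real.add_one_le_exp (1 / ((2 : ℝ) ^ j - 1))
    linarith
  have hprod : ∏ r ∈ (Finset.Ioc N (2 * N)).filter Nat.Prime, (1 - (r : ℝ)⁻¹)⁻¹ ≤
      Real.exp (k * (1 / (2 ^ j - 1))) := by
    rw [Real.exp_nat_mul, hk, ← Finset.prod_const]
    refine Finset.prod_le_prod (fun r hr => ?_) hfac
    have h1 := (Finset.mem_Ioc.1 (Finset.mem_filter.1 hr).1).1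
    have h2 : (2 : ℝ) ^ j ≤ r := by rw [← hNr]; exact_mod_cast h1.le
    have h3 : (r : ℝ)⁻¹ ≤ 1 := inv_le_one_of_one_le₀ (by linarith)
    have : 0 ≤ 1 - (r : ℝ)⁻¹ := by linarith
    positivity
  refine hprod.trans ?_
  -- the number of primes
  have hl2 : 0 < Real.log 2 := Real.log_pos (by norm_num)
  have hcount : (k : ℝ) ≤ 2 ^ j * (2 / j) := by
    have h1 := primes_dyadic N
    rw [← hk, hNr, Real.log_pow, show (4 : ℝ) = 2 ^ 2 by norm_num, Real.log_pow] at h1
    push_cast at h1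
    have h2 : (k : ℝ) * j ≤ 2 ^ j * 2 := by
      have h3 : (k : ℝ) * j * Real.log 2 ≤ 2 ^ j * 2 * Real.log 2 := by linarith
      exact le_of_mul_le_mul_right h3 hl2
    rw [mul_div_assoc', le_div_iff₀ hj0]
    exact h2
  have hden : (0 : ℝ) < 2 ^ j - 1 := by linarith
  have hexp : (k : ℝ) * (1 / (2 ^ j - 1)) ≤ 2 * (1 / j + 1 / (2 * j ^ 2)) := by
    have h4j : 4 * (j : ℝ) ≤ 2 ^ j := by
      clear_value N
      have : ∀ n : ℕ, 4 * (n + 4) ≤ 2 ^ (n + 4) := by
        intro n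
        induction n with
        | zero => norm_num
        | succ n ih => rw [show n + 1 + 4 = (n + 4) + 1 by ring, pow_succ]; omega
      obtain ⟨n, rfl⟩ := Nat.exists_eq_add_of_le' hj
      have := this n
      have h2 : ((4 * (n + 4) : ℕ) : ℝ) ≤ ((2 ^ (n + 4) : ℕ) : ℝ) := by exact_mod_cast this
      push_cast at h2 ⊢
      exact h2
    rw [mul_one_div, div_le_iff₀ hden]
    refine hcount.trans ?_
    have e1 : 2 * (1 / (j : ℝ) + 1 / (2 * j ^ 2)) * (2 ^ j - 1) - 2 ^ j * (2 / j) =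
        (2 ^ j - 1 - 2 * j) / j ^ 2 := by
      field_simp
      ring
    have e2 : 0 ≤ (2 ^ j - 1 - 2 * (j : ℝ)) / j ^ 2 := by
      apply div_nonneg _ (by positivity)
      linarith
    linarith
  have hlog : 1 / (j : ℝ) + 1 / (2 * j ^ 2) ≤ Real.log (j / (j - 1)) := by
    have hj1 : (0 : ℝ) < j - 1 := by linarith
    have hx : |1 / (j : ℝ)| < 1 := by
      rw [abs_of_pos (by positivity), div_lt_one hj0]
      linarith
    have h1 := (Real.hasSum_pow_div_log_of_abs_lt_one hx)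
    have h2 := sum_le_hasSum (Finset.range 2) (fun i _ => by positivity) h1
    rw [Finset.sum_range_succ, Finset.sum_range_one] at h2
    norm_num at h2
    have h3 : Real.log (j / (j - 1)) = - Real.log (1 - 1 / j) := by
      rw [← Real.log_inv]
      congr 1
      field_simp
    rw [h3]
    norm_num
    have e : (j : ℝ)⁻¹ + ((j : ℝ) ^ 2)⁻¹ * 2⁻¹ = (j : ℝ)⁻¹ + ((j : ℝ) ^ 2)⁻¹ / 2 := by ring
    linarith
  calc Real.exp (k * (1 / (2 ^ j - 1))) ≤ Real.exp (2 * Real.log (j / (j - 1))) := by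
        apply Real.exp_le_exp.2
        linarith
    _ = (j / (j - 1)) ^ 2 := by
        have hj1 : (0 : ℝ) < j - 1 := by linarith
        rw [show (2 : ℝ) * Real.log (j / (j - 1)) = ((2 : ℕ) : ℝ) * Real.log (j / (j - 1)) by norm_num,
          Real.exp_nat_mul, Real.exp_log (by positivity)]

lemma VV_sixteen : VV (2 ^ 4) ≤ 9 * (58 / 100) := by
  have e : (Finset.Icc 1 (2 ^ 4)).filter Nat.Prime = {2, 3, 5, 7, 11, 13} := by decide +kernel
  unfold VV
  rw [e]
  norm_num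

lemma VV_pow (n : ℕ) : VV (2 ^ (n + 4)) ≤ 58 / 100 * ((n : ℝ) + 3) ^ 2 := by
  induction n with
  | zero =>
    have := VV_sixteen
    norm_num at this ⊢
    linarith
  | succ n ih =>
    have h1 := VV_step (show 4 ≤ n + 4 by omega)
    rw [show n + 1 + 4 = n + 4 + 1 by ring]
    refine h1.trans ?_
    push_cast
    have h3 : (0 : ℝ) < n + 3 := by positivity
    have e : ((n : ℝ) + 4) / (n + 4 - 1) = (n + 4) / (n + 3) := by congr 1; ring
    rw [e]
    calc VV (2 ^ (n + 4)) * (((n : ℝ) + 4) / (n + 3)) ^ 2 ≤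
        58 / 100 * ((n : ℝ) + 3) ^ 2 * (((n : ℝ) + 4) / (n + 3)) ^ 2 := by gcongr
      _ = 58 / 100 * ((n : ℝ) + 1 + 3) ^ 2 := by
        field_simp
        ring

lemma sum_inv_sqrt (N : ℕ) : ∑ r ∈ Finset.Icc 1 N, (r : ℝ) ^ (-(1 / 2) : ℝ) ≤ 2 * Real.sqrt N := by
  induction N with
  | zero => simp
  | succ N ih =>
    rw [Finset.sum_Icc_succ_top (by omega)]
    have h1 : ((N + 1 : ℕ) : ℝ) ^ (-(1 / 2) : ℝ) = 1 / Real.sqrt ((N + 1 : ℕ) : ℝ) := by
      rw [Real.rpow_neg (by positivity), ← Real.sqrt_eq_rpow, one_div]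
    rw [h1]
    set x := Real.sqrt ((N + 1 : ℕ) : ℝ) with hx
    set y := Real.sqrt (N : ℝ) with hy
    have hx0 : 0 < x := Real.sqrt_pos.2 (by positivity)
    have hy0 : 0 ≤ y := Real.sqrt_nonneg _
    have hxx : x ^ 2 = N + 1 := by rw [hx, Real.sq_sqrt (by positivity)]; push_cast; ring
    have hyy : y ^ 2 = N := by rw [hy, Real.sq_sqrt (by positivity)]
    have h2 : 1 / x ≤ 2 * x - 2 * y := by
      rw [div_le_iff₀ hx0]
      nlinarith [sq_nonneg (x - y)]
    linarith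

lemma ZZ_explicit (p : ℕ) : ZZ p ≤ Real.exp (7 * Real.sqrt p) := by
  have hfac : ∀ r ∈ (Finset.Icc 1 p).filter Nat.Prime,
      (1 - (r : ℝ) ^ (-(1 / 2) : ℝ))⁻¹ ≤ Real.exp (7 / 2 * (r : ℝ) ^ (-(1 / 2) : ℝ)) := by
    intro r hr
    have hp := (Finset.mem_filter.1 hr).2
    have h2 : (2 : ℝ) ≤ r := by exact_mod_cast hp.two_le
    set z := (r : ℝ) ^ (-(1 / 2) : ℝ) with hz
    have hz0 : 0 ≤ z := by positivity
    have hz1 : z ≤ 5 / 7 := by
      have h4 : z ≤ (2 : ℝ) ^ (-(1 / 2) : ℝ) :=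
        Real.rpow_le_rpow_of_nonpos (by norm_num) h2 (by norm_num)
      have h5 : (2 : ℝ) ^ (-(1 / 2) : ℝ) ≤ 5 / 7 := by
        have h6 : ((2 : ℝ) ^ (-(1 / 2) : ℝ)) ^ 2 = 1 / 2 := by
          rw [← Real.rpow_natCast, ← Real.rpow_mul (by norm_num)]
          norm_num
        have h7 : 0 ≤ (2 : ℝ) ^ (-(1 / 2) : ℝ) := by positivity
        nlinarith
      linarith
    have h1 : (1 - z)⁻¹ = 1 + z / (1 - z) := by
      have : 1 - z ≠ 0 := by linarith
      field_simp
      ring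
    rw [h1]
    have h3 : z / (1 - z) ≤ 7 / 2 * z := by
      rw [div_le_iff₀ (by linarith)]
      nlinarith
    have := Real.add_one_le_exp (7 / 2 * z)
    linarith
  unfold ZZ
  calc ∏ r ∈ (Finset.Icc 1 p).filter Nat.Prime, (1 - (r : ℝ) ^ (-(1 / 2) : ℝ))⁻¹ ≤
      ∏ r ∈ (Finset.Icc 1 p).filter Nat.Prime, Real.exp (7 / 2 * (r : ℝ) ^ (-(1 / 2) : ℝ)) := by
        refine Finset.prod_le_prod (fun r hr => ?_) hfac
        have hp := (Finset.mem_filter.1 hr).2
        have h3 : (r : ℝ) ^ (-(1 / 2) : ℝ) ≤ 1 :=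
          Real.rpow_le_one_of_one_le_of_nonpos (by exact_mod_cast hp.one_lt.le) (by norm_num)
        have : 0 ≤ 1 - (r : ℝ) ^ (-(1 / 2) : ℝ) := by linarith
        positivity
    _ = Real.exp (7 / 2 * ∑ r ∈ (Finset.Icc 1 p).filter Nat.Prime, (r : ℝ) ^ (-(1 / 2) : ℝ)) := by
        rw [← Real.exp_sum, Finset.mul_sum]
    _ ≤ Real.exp (7 * Real.sqrt p) := by
        apply Real.exp_le_exp.2
        have h1 : ∑ r ∈ (Finset.Icc 1 p).filter Nat.Prime, (r : ℝ) ^ (-(1 / 2) : ℝ) ≤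
            ∑ r ∈ Finset.Icc 1 p, (r : ℝ) ^ (-(1 / 2) : ℝ) :=
          Finset.sum_le_sum_of_subset_of_nonneg (Finset.filter_subset _ _)
            fun r _ _ => by positivity
        have h2 := sum_inv_sqrt p
        linarith

end Pool.Agent.Y867.FM
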