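import Mathlib
import Pool.Agent.Y867.FM4

set_option autoImplicit false

/-!
# Fermat numbers with a random amplitude: fewer than one amplitude in 400000
-/

namespace Pool.Agent.Y867.FM

open Filter Topology MeasureTheory
open Pool.Agent.H305R2 (roughPart SM SMz mem_SMz SM_pos VV ZZ sum_le_VV tail_le VV_nonneg ZZ_nonneg
  sum_rough_eq)

/-- size of the error term -/
lemma error_small {m : ℕ} (hm : 31 ≤ m) :
    2 / (2 : ℝ) ^ (2 ^ (m - 1)) + 4 * (((2 : ℝ) ^ (2 ^ (m - 1))) ^ (-(1 / 2) : ℝ) *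
      ZZ (2 ^ (m + 1))) ≤ 1 / 100 / 2 ^ m := by
  set x : ℝ := 2 ^ m with hx
  have hx31 : (2 : ℝ) ^ 31 ≤ x := pow_le_pow_right₀ (by norm_num) hm
  have hx0 : 0 < x := by positivity
  have hlog2 : 0.69 < Real.log 2 := by have := Real.log_two_gt_d9; linarith
  have hl2 : 0 < Real.log 2 := by linarith
  have hm1 : ((2 ^ (m - 1) : ℕ) : ℝ) = x / 2 := by
    push_cast
    rw [hx]
    obtain ⟨k, rfl⟩ := Nat.exists_eq_add_of_le' (show 1 ≤ m by omega)
    rw [Nat.add_sub_cancel, pow_succ]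
    ring
  have hS : (2 : ℝ) ^ (2 ^ (m - 1)) = Real.exp (x / 2 * Real.log 2) := by
    rw [← hm1, Real.exp_nat_mul, Real.exp_log (by norm_num)]
  have hsqrt : Real.sqrt ((2 ^ (m + 1) : ℕ) : ℝ) ≤ x / 2 ^ 15 := by
    have h1 : ((2 ^ (m + 1) : ℕ) : ℝ) = 2 * x := by push_cast; rw [hx, pow_succ]; ring
    rw [h1, Real.sqrt_le_left (by positivity)]
    have : 2 * x ≤ x * x / 2 ^ 30 := by
      rw [le_div_iff₀ (by positivity)]
      nlinarith
    calc 2 * x ≤ x * x / 2 ^ 30 := this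
      _ = (x / 2 ^ 15) ^ 2 := by ring
  have hexp : ∀ t : ℝ, 0 < t → Real.exp (-t) ≤ 2 / t ^ 2 := by
    intro t ht
    rw [Real.exp_neg, ← one_div, div_le_div_iff₀ (Real.exp_pos _) (by positivity)]
    have := Real.quadratic_le_exp_of_nonneg ht.le
    nlinarith
  have h1 : 2 / (2 : ℝ) ^ (2 ^ (m - 1)) ≤ 1 / 200 / x := by
    rw [hS, div_eq_mul_inv, ← Real.exp_neg]
    have h2 := hexp (x / 2 * Real.log 2) (by positivity)
    have h3 : (2 : ℝ) / (x / 2 * Real.log 2) ^ 2 ≤ 2 / (x / 2 * (1 / 2)) ^ 2 := by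
      apply div_le_div_of_nonneg_left (by norm_num) (by positivity)
      apply pow_le_pow_left₀ (by positivity)
      nlinarith
    have h4 : 2 * (2 / (x / 2 * (1 / 2)) ^ 2) ≤ 1 / 200 / x := by
      have e : 2 * (2 / (x / 2 * (1 / 2)) ^ 2) = 64 / x / x := by field_simp; ring
      rw [e]
      apply div_le_div_of_nonneg_right _ hx0.le
      rw [div_le_div_iff₀ hx0 (by norm_num)]
      nlinarith
    linarith
  have h5 : 4 * (((2 : ℝ) ^ (2 ^ (m - 1))) ^ (-(1 / 2) : ℝ) * ZZ (2 ^ (m + 1))) ≤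
      1 / 200 / x := by
    have h6 : ((2 : ℝ) ^ (2 ^ (m - 1))) ^ (-(1 / 2) : ℝ) = Real.exp (-(x / 4 * Real.log 2)) := by
      rw [hS, ← Real.exp_mul]
      congr 1
      ring
    have h7 := ZZ_explicit (2 ^ (m + 1))
    have h8 : ((2 : ℝ) ^ (2 ^ (m - 1))) ^ (-(1 / 2) : ℝ) * ZZ (2 ^ (m + 1)) ≤
        Real.exp (-(x / 6)) := by
      rw [h6]
      calc Real.exp (-(x / 4 * Real.log 2)) * ZZ (2 ^ (m + 1)) ≤
          Real.exp (-(x / 4 * Real.log 2)) * Real.exp (7 * (x / 2 ^ 15)) := by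
            refine mul_le_mul_of_nonneg_left (h7.trans ?_) (Real.exp_pos _).le
            apply Real.exp_le_exp.2
            linarith
        _ = Real.exp (-(x / 4 * Real.log 2) + 7 * (x / 2 ^ 15)) := by rw [Real.exp_add]
        _ ≤ Real.exp (-(x / 6)) := by
            apply Real.exp_le_exp.2
            nlinarith
    have h9 := hexp (x / 6) (by positivity)
    have h10 : 4 * (2 / (x / 6) ^ 2) ≤ 1 / 200 / x := by
      have e : 4 * (2 / (x / 6) ^ 2) = 288 / x / x := by field_simp; ring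
      rw [e]
      apply div_le_div_of_nonneg_right _ hx0.le
      rw [div_le_div_iff₀ hx0 (by norm_num)]
      nlinarith
    linarith
  have e : (1 : ℝ) / 100 / x = 1 / 200 / x + 1 / 200 / x := by ring
  rw [e]
  linarith

/-- the count -/
theorem count_bound {m : ℕ} (hm : 31 ≤ m) :
    (((Finset.Ioc (2 ^ (2 ^ m)) (2 * 2 ^ (2 ^ m) + 2)).filter
      (fun n => (roughPart (2 ^ (m + 1)) n).Prime)).card : ℝ) ≤
      (2 : ℝ) ^ (2 ^ m) * ((4 * VV (2 ^ (m + 1)) + 1 / 100) / 2 ^ m) := by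
  set P : ℕ := 2 ^ (2 ^ m) with hP
  set q : ℕ := 2 ^ (m + 1) with hq
  set S : ℕ := 2 ^ (2 ^ (m - 1)) with hS
  have hSS : S * S = P := by
    rw [hS, hP, ← pow_add]
    congr 1
    obtain ⟨k, rfl⟩ := Nat.exists_eq_add_of_le' (show 1 ≤ m by omega)
    rw [Nat.add_sub_cancel, pow_succ]
    ring
  have hSpos : 0 < S := by positivity
  have hPpos : 0 < P := by positivity
  have hP0 : (0 : ℝ) < P := by exact_mod_cast hPpos
  have hS0 : (0 : ℝ) < S := by exact_mod_cast hSpos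
  have hPr : ((P : ℕ) : ℝ) = 2 ^ (2 ^ m) := by rw [hP]; push_cast; rfl
  have hSr : ((S : ℕ) : ℝ) = 2 ^ (2 ^ (m - 1)) := by rw [hS]; push_cast; rfl
  have hl2 : 0 < Real.log 2 := Real.log_pos (by norm_num)
  have hcard : (((Finset.Ioc P (2 * P + 2)).filter (fun n => (roughPart q n).Prime)).card : ℝ) =
      ∑ s ∈ SMz q ((2 * P + 2 : ℕ) : ℝ), (((Finset.Ioc (P / s) ((2 * P + 2) / s)).filter
        (fun r => r.Prime ∧ q < r)).card : ℝ) := by
    have h1 := sum_rough_eq q P (2 * P + 2) (fun _ => (1 : ℝ))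
    simpa using h1
  rw [hcard]
  set Z := SMz q ((2 * P + 2 : ℕ) : ℝ) with hZ
  have hZmem : ∀ s ∈ Z, s ∈ SM q ∧ 1 ≤ s ∧ s ≤ 2 * P + 2 := by
    intro s hs
    have h1 := (mem_SMz (by positivity)).1 hs
    exact ⟨h1.1, SM_pos h1.1, by exact_mod_cast h1.2⟩
  rw [← Finset.sum_filter_add_sum_filter_not Z (fun s => s ≤ S)]
  -- small s
  have hsmall : ∀ s ∈ Z.filter (fun s => s ≤ S),
      (((Finset.Ioc (P / s) ((2 * P + 2) / s)).filter (fun r => r.Prime ∧ q < r)).card : ℝ) ≤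
        4 * P / 2 ^ m * (s : ℝ)⁻¹ + 2 := by
    intro s hs
    obtain ⟨hsZ, hsS⟩ := Finset.mem_filter.1 hs
    obtain ⟨_, hs1, _⟩ := hZmem s hsZ
    have hs0 : (0 : ℝ) < s := by exact_mod_cast hs1
    set N := P / s with hN
    have hNS : S ≤ N := by
      rw [hN, Nat.le_div_iff_mul_le hs1, ← hSS]
      exact Nat.mul_le_mul_left S hsS
    have hNle : (N : ℝ) ≤ P / s := Nat.cast_div_le
    have hup : (2 * P + 2) / s ≤ 2 * N + 2 := by
      have h1 : P < s * (N + 1) := by rw [hN]; exact Nat.lt_mul_div_succ P hs1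
      have h2 : 2 * P + 2 ≤ (2 * N + 2) * s := by nlinarith
      exact Nat.div_le_of_le_mul (by rw [mul_comm s]; exact h2)
    have hsub : (Finset.Ioc N ((2 * P + 2) / s)).filter (fun r => r.Prime ∧ q < r) ⊆
        (Finset.Ioc N (2 * N)).filter Nat.Prime ∪ {2 * N + 1, 2 * N + 2} := by
      intro r hr
      obtain ⟨h1, h2, _⟩ := Finset.mem_filter.1 hr
      rw [Finset.mem_Ioc] at h1
      rw [Finset.mem_union, Finset.mem_filter, Finset.mem_Ioc, Finset.mem_insert,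
        Finset.mem_singleton]
      by_cases h3 : r ≤ 2 * N
      · exact Or.inl ⟨⟨h1.1, h3⟩, h2⟩
      · right; omega
    have hc1 := (Finset.card_le_card hsub).trans (Finset.card_union_le _ _)
    have hc2 : ({2 * N + 1, 2 * N + 2} : Finset ℕ).card ≤ 2 := Finset.card_le_two
    have hc3 : (((Finset.Ioc N ((2 * P + 2) / s)).filter (fun r => r.Prime ∧ q < r)).card : ℝ) ≤
        ((Finset.Ioc N (2 * N)).filter Nat.Prime).card + 2 := by
      have : ((Finset.Ioc N ((2 * P + 2) / s)).filter (fun r => r.Prime ∧ q < r)).card ≤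
        ((Finset.Ioc N (2 * N)).filter Nat.Prime).card + 2 := by omega
      exact_mod_cast this
    suffices hkk : (((Finset.Ioc N (2 * N)).filter Nat.Prime).card : ℝ) ≤
        4 * P / 2 ^ m * (s : ℝ)⁻¹ by linarith
    have hk := primes_dyadic N
    have hN0 : (0 : ℝ) < N := by exact_mod_cast lt_of_lt_of_le hSpos hNS
    have hlogN : 2 ^ m / 2 * Real.log 2 ≤ Real.log N := by
      have h1 : Real.log S ≤ Real.log N := Real.log_le_log hS0 (by exact_mod_cast hNS)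
      rw [hSr, Real.log_pow] at h1
      have h2 : ((2 ^ (m - 1) : ℕ) : ℝ) = 2 ^ m / 2 := by
        push_cast
        obtain ⟨k, rfl⟩ := Nat.exists_eq_add_of_le' (show 1 ≤ m by omega)
        rw [Nat.add_sub_cancel, pow_succ]
        ring
      rw [h2] at h1
      exact h1
    set k := ((Finset.Ioc N (2 * N)).filter Nat.Prime).card with hkdef
    have hk0 : (0 : ℝ) ≤ k := by positivity
    have h4 : Real.log 4 = 2 * Real.log 2 := by
      rw [show (4 : ℝ) = 2 ^ 2 by norm_num, Real.log_pow]; norm_num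
    rw [h4] at hk
    have h5 : (k : ℝ) * (2 ^ m / 2) * Real.log 2 ≤ 2 * N * Real.log 2 := by
      have := mul_le_mul_of_nonneg_left hlogN hk0
      linarith
    have h6 : (k : ℝ) * (2 ^ m / 2) ≤ 2 * N := le_of_mul_le_mul_right h5 hl2
    have h7 : (0 : ℝ) < 2 ^ m := by positivity
    have h8 : 4 * (P : ℝ) / 2 ^ m * (s : ℝ)⁻¹ = 4 * (P / s) / 2 ^ m := by
      field_simp
    rw [h8, le_div_iff₀ h7]
    linarith
  have hlarge : ∀ s ∈ Z.filter (fun s => ¬ s ≤ S),
      (((Finset.Ioc (P / s) ((2 * P + 2) / s)).filter (fun r => r.Prime ∧ q < r)).card : ℝ) ≤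
        4 * P * (s : ℝ)⁻¹ := by
    intro s hs
    obtain ⟨hsZ, _⟩ := Finset.mem_filter.1 hs
    obtain ⟨_, hs1, hsB⟩ := hZmem s hsZ
    have hs0 : (0 : ℝ) < s := by exact_mod_cast hs1
    have hc : ((Finset.Ioc (P / s) ((2 * P + 2) / s)).filter (fun r => r.Prime ∧ q < r)).card ≤
        (2 * P + 2) / s - P / s := by
      refine (Finset.card_filter_le _ _).trans ?_
      rw [Nat.card_Ioc]
    have h1 : (((2 * P + 2) / s - P / s : ℕ) : ℝ) ≤ 4 * P * (s : ℝ)⁻¹ := by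
      have hle : P / s ≤ (2 * P + 2) / s := Nat.div_le_div_right (by omega)
      rw [Nat.cast_sub hle]
      have h2 : (((2 * P + 2) / s : ℕ) : ℝ) ≤ ((2 * P + 2 : ℕ) : ℝ) / s := Nat.cast_div_le
      have h3 : (P : ℝ) / s - 1 < ((P / s : ℕ) : ℝ) := by
        have h4 : P < s * (P / s + 1) := Nat.lt_mul_div_succ P hs1
        have h5 : (P : ℝ) < s * ((P / s : ℕ) + 1) := by exact_mod_cast h4
        have h6 : (P : ℝ) / s < (P / s : ℕ) + 1 := by
          rw [div_lt_iff₀ hs0, mul_comm]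
          exact h5
        linarith
      have h7 : (1 : ℝ) ≤ ((2 * P + 2 : ℕ) : ℝ) / s := by
        rw [le_div_iff₀ hs0, one_mul]
        exact_mod_cast hsB
      have h8 : ((2 * P + 2 : ℕ) : ℝ) / s + ((2 * P + 2 : ℕ) : ℝ) / s - P / s ≤ 4 * P * (s : ℝ)⁻¹ := by
        have e : ((2 * P + 2 : ℕ) : ℝ) / s + ((2 * P + 2 : ℕ) : ℝ) / s - P / s =
            (3 * P + 4) * (s : ℝ)⁻¹ := by
          push_cast
          field_simp
          ring
        rw [e]
        refine mul_le_mul_of_nonneg_right ?_ (by positivity)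
        have hP4 : (4 : ℝ) ≤ P := by
          have : 4 ≤ P := by
            calc 4 = 2 ^ 2 := by norm_num
              _ ≤ 2 ^ (2 ^ m) := Nat.pow_le_pow_right (by norm_num)
                (by
                  have : 1 ≤ m := by omega
                  calc 2 = 2 ^ 1 := by norm_num
                    _ ≤ 2 ^ m := Nat.pow_le_pow_right (by norm_num) this)
          exact_mod_cast this
        linarith
      linarith
    have h9 : (((Finset.Ioc (P / s) ((2 * P + 2) / s)).filter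
        (fun r => r.Prime ∧ q < r)).card : ℝ) ≤ (((2 * P + 2) / s - P / s : ℕ) : ℝ) := by
      exact_mod_cast hc
    linarith
  have hsum1 := Finset.sum_le_sum hsmall
  have hsum2 := Finset.sum_le_sum hlarge
  rw [Finset.sum_add_distrib, ← Finset.mul_sum, Finset.sum_const, nsmul_eq_mul] at hsum1
  rw [← Finset.mul_sum] at hsum2
  have hVVb : ∑ s ∈ Z.filter (fun s => s ≤ S), (s : ℝ)⁻¹ ≤ VV q :=
    sum_le_VV q _ fun s hs => (hZmem s (Finset.mem_filter.1 hs).1).1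
  have hZZb : ∑ s ∈ Z.filter (fun s => ¬ s ≤ S), (s : ℝ)⁻¹ ≤ (S : ℝ) ^ (-(1 / 2) : ℝ) * ZZ q := by
    refine tail_le q hS0 _ fun s hs => ?_
    obtain ⟨hsZ, hsS⟩ := Finset.mem_filter.1 hs
    refine ⟨(hZmem s hsZ).1, ?_⟩
    push Not at hsS
    exact_mod_cast hsS.le
  have hcardS : ((Z.filter (fun s => s ≤ S)).card : ℝ) ≤ S := by
    have h1 : Z.filter (fun s => s ≤ S) ⊆ Finset.Icc 1 S := by
      intro s hs
      obtain ⟨hsZ, hsS⟩ := Finset.mem_filter.1 hs
      exact Finset.mem_Icc.2 ⟨(hZmem s hsZ).2.1, hsS⟩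
    have h2 := Finset.card_le_card h1
    rw [Nat.card_Icc, Nat.add_sub_cancel] at h2
    exact_mod_cast h2
  have herr := error_small hm
  rw [← hSr] at herr
  have h2m : (0 : ℝ) < 2 ^ m := by positivity
  have hA : 4 * (P : ℝ) / 2 ^ m * ∑ s ∈ Z.filter (fun s => s ≤ S), (s : ℝ)⁻¹ ≤
      4 * (P : ℝ) / 2 ^ m * VV q := mul_le_mul_of_nonneg_left hVVb (by positivity)
  have hB : 4 * (P : ℝ) * ∑ s ∈ Z.filter (fun s => ¬ s ≤ S), (s : ℝ)⁻¹ ≤
      4 * (P : ℝ) * ((S : ℝ) ^ (-(1 / 2) : ℝ) * ZZ q) := mul_le_mul_of_nonneg_left hZZb (by positivity)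
  have hSP : 2 * (S : ℝ) = P * (2 / S) := by
    have : (S : ℝ) * S = P := by exact_mod_cast hSS
    rw [← this]
    field_simp
  have hC := mul_le_mul_of_nonneg_left herr hP0.le
  rw [← hPr]
  have e : (P : ℝ) * ((4 * VV q + 1 / 100) / 2 ^ m) =
      4 * (P : ℝ) / 2 ^ m * VV q + P * (1 / 100 / 2 ^ m) := by
    field_simp
  rw [e]
  have e2 : (P : ℝ) * (2 / (S : ℝ) + 4 * ((S : ℝ) ^ (-(1 / 2) : ℝ) * ZZ q)) =
      2 * S + 4 * P * ((S : ℝ) ^ (-(1 / 2) : ℝ) * ZZ q) := by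
    rw [hSP]; ring
  rw [e2] at hC
  linarith

/-- the measure for one index -/
theorem measure_index {m : ℕ} (hm : 31 ≤ m) :
    volume.real {β : ℝ | β ∈ Set.Ioc (1 : ℝ) 2 ∧ (G 2 m β).Prime} ≤
      233 / 100 * (m ^ 2 / 2 ^ m) := by
  set P : ℕ := 2 ^ (2 ^ m) with hP
  set q : ℕ := 2 ^ (m + 1) with hq
  have hPr : ((P : ℕ) : ℝ) = 2 ^ (2 ^ m) := by rw [hP]; push_cast; rfl
  have hP0 : (0 : ℝ) < P := by rw [hPr]; positivity
  set F : ℝ := P + 1 with hF
  have hF0 : 0 < F := by rw [hF]; linarith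
  have hFeq : ((2 : ℕ) : ℝ) ^ (2 ^ m) + 1 = F := by rw [hF, hPr]; norm_num
  set D := (Finset.Ioc P (2 * P + 2)).filter (fun n => (roughPart q n).Prime) with hD
  have hsub : {β : ℝ | β ∈ Set.Ioc (1 : ℝ) 2 ∧ (G 2 m β).Prime} ⊆
      ⋃ n ∈ D, Set.Ico ((n : ℝ) / F) (((n : ℝ) + 1) / F) := by
    rintro β ⟨⟨h1, h2⟩, hp⟩
    unfold G at hp
    rw [hFeq] at hp
    set n := ⌊β * F⌋₊ with hn
    have hx0 : 0 ≤ β * F := by positivity
    have h3 : (n : ℝ) ≤ β * F := Nat.floor_le hx0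
    have h4 : β * F < n + 1 := Nat.lt_floor_add_one _
    rw [Set.mem_iUnion₂]
    refine ⟨n, ?_, ?_, ?_⟩
    · rw [hD, Finset.mem_filter, Finset.mem_Ioc]
      refine ⟨⟨?_, ?_⟩, hp⟩
      · have h5 : ((P + 1 : ℕ) : ℝ) ≤ β * F := by
          push_cast
          rw [← hF]
          nlinarith
        have := Nat.le_floor h5
        omega
      · have h5 : (n : ℝ) ≤ ((2 * P + 2 : ℕ) : ℝ) := by
          push_cast
          have : β * F ≤ 2 * F := by nlinarith
          rw [hF] at this h3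
          linarith
        exact_mod_cast h5
    · rw [div_le_iff₀ hF0]; exact h3
    · rw [lt_div_iff₀ hF0]; exact h4
  have hmeas : volume (⋃ n ∈ D, Set.Ico ((n : ℝ) / F) (((n : ℝ) + 1) / F)) ≤
      ENNReal.ofReal (D.card * (1 / F)) := by
    refine (measure_biUnion_finset_le D _).trans ?_
    have h1 : ∀ n ∈ D, volume (Set.Ico ((n : ℝ) / F) (((n : ℝ) + 1) / F)) =
        ENNReal.ofReal (1 / F) := by
      intro n _
      rw [Real.volume_Ico]
      congr 1
      field_simp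
      ring
    rw [Finset.sum_congr rfl h1, Finset.sum_const, nsmul_eq_mul, ENNReal.ofReal_mul (by positivity),
      ENNReal.ofReal_natCast]
  have hle : volume.real {β : ℝ | β ∈ Set.Ioc (1 : ℝ) 2 ∧ (G 2 m β).Prime} ≤ D.card * (1 / F) :=
    ENNReal.toReal_le_of_le_ofReal (by positivity) ((measure_mono hsub).trans hmeas)
  refine hle.trans ?_
  have hcb := count_bound hm
  rw [← hP, ← hq, ← hPr, ← hD] at hcb
  have hVV : VV q ≤ 58 / 100 * (m : ℝ) ^ 2 := by
    obtain ⟨n, hn⟩ := Nat.exists_eq_add_of_le' (show 3 ≤ m by omega)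
    have h1 := VV_pow n
    have h2 : q = 2 ^ (n + 4) := by rw [hq, hn]
    rw [h2, hn]
    push_cast
    exact h1
  have h2m : (0 : ℝ) < 2 ^ m := by positivity
  have hm31 : (31 : ℝ) ≤ m := by exact_mod_cast hm
  have h5 : (4 * VV q + 1 / 100) / 2 ^ m ≤ 233 / 100 * (m ^ 2 / 2 ^ m) := by
    rw [← mul_div_assoc]
    apply div_le_div_of_nonneg_right _ h2m.le
    nlinarith
  have h6 : (D.card : ℝ) * (1 / F) ≤ P * (233 / 100 * (m ^ 2 / 2 ^ m)) * (1 / F) := by
    refine mul_le_mul_of_nonneg_right (hcb.trans ?_) (by positivity)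
    exact mul_le_mul_of_nonneg_left h5 hP0.le
  refine h6.trans ?_
  have h7 : (P : ℝ) * (1 / F) ≤ 1 := by
    rw [mul_one_div, div_le_one hF0, hF]
    linarith
  have h8 : 0 ≤ 233 / 100 * ((m : ℝ) ^ 2 / 2 ^ m) := by positivity
  nlinarith

/-- sums of `m ^ 2 / 2 ^ m` -/
noncomputable def Us (m : ℕ) : ℝ := 2 * ((m : ℝ) ^ 2 + 2 * m + 3) / 2 ^ m

lemma hasSum_sq (M : ℕ) : HasSum (fun k : ℕ => (((M + k : ℕ) : ℝ)) ^ 2 / 2 ^ (M + k)) (Us M) := by
  rw [hasSum_iff_tendsto_nat_of_nonneg (fun k => by positivity)]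
  have hsub : ∀ m : ℕ, Us m - Us (m + 1) = (m : ℝ) ^ 2 / 2 ^ m := by
    intro m
    unfold Us
    have : (2 : ℝ) ^ m ≠ 0 := by positivity
    rw [pow_succ]
    field_simp
    push_cast
    ring
  have h1 : ∀ n : ℕ, ∑ k ∈ Finset.range n, (((M + k : ℕ) : ℝ)) ^ 2 / 2 ^ (M + k) =
      Us M - Us (M + n) := by
    intro n
    induction n with
    | zero => simp
    | succ n ih =>
      rw [Finset.sum_range_succ, ih, ← hsub (M + n), ← add_assoc]
      ring
  simp only [h1]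
  have h2 : Tendsto Us atTop (𝓝 0) := by
    have h1 : Tendsto (fun m : ℕ => (m : ℝ) ^ 1 * (1 / 2 : ℝ) ^ m) atTop (𝓝 0) :=
      tendsto_pow_const_mul_const_pow_of_abs_lt_one 1 (by rw [abs_of_pos] <;> norm_num)
    have h2 : Tendsto (fun m : ℕ => (1 / 2 : ℝ) ^ m) atTop (𝓝 0) :=
      tendsto_pow_atTop_nhds_zero_of_lt_one (by norm_num) (by norm_num)
    have h0 : Tendsto (fun m : ℕ => (m : ℝ) ^ 2 * (1 / 2 : ℝ) ^ m) atTop (𝓝 0) :=
      tendsto_pow_const_mul_const_pow_of_abs_lt_one 2 (by rw [abs_of_pos] <;> norm_num)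
    have h3 := ((h0.const_mul 2).add (h1.const_mul 4)).add (h2.const_mul 6)
    simp only [mul_zero, add_zero] at h3
    refine h3.congr fun m => ?_
    unfold Us
    rw [one_div, inv_pow]
    field_simp
    ring
  have h3 : Tendsto (fun n : ℕ => Us (M + n)) atTop (𝓝 0) := by
    have := h2.comp (tendsto_add_atTop_nat M)
    refine this.congr fun n => ?_
    simp [add_comm]
  simpa using h3.const_sub (Us M)

/-- fewer than one amplitude in 400000 -/
theorem explicit : volume.real (Bd 2 31 1 2) ≤ 1 / 400000 := by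
  have e : Bd 2 31 1 2 = ⋃ k : ℕ, {β : ℝ | β ∈ Set.Ioc (1 : ℝ) 2 ∧ (G 2 (31 + k) β).Prime} := by
    ext β
    simp only [Bd, Set.mem_ofPred_eq, Set.mem_iUnion]
    constructor
    · rintro ⟨h1, m, hm, hp⟩
      exact ⟨m - 31, h1, by rwa [Nat.add_sub_cancel' hm]⟩
    · rintro ⟨k, h1, hp⟩
      exact ⟨h1, 31 + k, by omega, hp⟩
  have h1 : volume (⋃ k : ℕ, {β : ℝ | β ∈ Set.Ioc (1 : ℝ) 2 ∧ (G 2 (31 + k) β).Prime}) ≤
      ENNReal.ofReal (233 / 100 * Us 31) := by
    refine real_iUnion_le (f := fun k => 233 / 100 * ((((31 + k : ℕ) : ℝ)) ^ 2 / 2 ^ (31 + k)))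
      (fun k => by positivity) (fun k => measure_index (by omega)) (fun k => ?_)
      ((hasSum_sq 31).mul_left _)
    refine ne_top_of_le_ne_top (b := volume (Set.Ioc (1 : ℝ) 2)) (by simp) (measure_mono ?_)
    intro β hβ
    exact hβ.1
  rw [e]
  have h2 : 233 / 100 * Us 31 ≤ 1 / 400000 := by
    unfold Us
    norm_num
  refine (ENNReal.toReal_le_of_le_ofReal ?_ h1).trans h2
  unfold Us
  positivity

end Pool.Agent.Y867.FM
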