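import Pool.Agent.H474R2.PG.Final

set_option autoImplicit false

/-!
# The error term of the asymptotic formula for the number of primes `n^2+1` is not `o(log log N)`

From the long strings of composite values of an irreducible polynomial (`Pool.Agent.H474R2.PG.Final`).
-/

namespace Pool.Agent.Y867

open Polynomial Finset MeasureTheory

/-- the number of `1 ≤ n ≤ N` with `n^2+1` prime -/
def P (N : ℕ) : ℕ := ((Icc 1 N).filter (fun n => (n ^ 2 + 1).Prime)).card

/-- the polynomial `x^2+1` -/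
noncomputable def F : ℤ[X] := X ^ 2 + C 1

lemma F_eval (x : ℤ) : F.eval x = x ^ 2 + 1 := by simp [F]

lemma F_monic : F.Monic := monic_X_pow_add_C 1 (by norm_num)

lemma F_deg : F.natDegree = 2 := natDegree_X_pow_add_C

lemma F_irr : Irreducible F := by
  rw [F_monic.irreducible_iff_roots_eq_zero_of_degree_le_three (by rw [F_deg])
    (by rw [F_deg]; norm_num)]
  rw [Multiset.eq_zero_iff_forall_notMem]
  intro a ha
  have h := (mem_roots'.1 ha).2
  rw [IsRoot, F_eval] at h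
  nlinarith [sq_nonneg a]

/-- long intervals without primes `n^2+1` -/
theorem gap : ∃ c : ℝ, 0 < c ∧ ∃ Y₀ : ℝ, ∀ Y : ℝ, Y₀ ≤ Y → ∀ M : ℕ, Y ≤ M →
    ∃ x : ℕ, M < x ∧ (x : ℝ) + c * Real.log Y * Real.log (Real.log Y) ≤ M + Y ∧
      ∀ k : ℕ, (k : ℝ) ≤ c * Real.log Y * Real.log (Real.log Y) → ¬ ((x + k) ^ 2 + 1).Prime := by
  obtain ⟨c, hc, Y₀, h⟩ := Pool.Agent.H474R2.PG.composite_strings F F_irr (by rw [F_deg]; norm_num)
    (by rw [F_monic.leadingCoeff]; norm_num)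
  refine ⟨c, hc, Y₀, fun Y hY M hM => ?_⟩
  obtain ⟨x, hx, hx2, hk⟩ := h Y hY M (by exact_mod_cast hM)
  lift x to ℕ using (by have := Int.natCast_nonneg M; omega)
  refine ⟨x, by exact_mod_cast hx, by exact_mod_cast hx2, fun k hk2 hp => ?_⟩
  obtain ⟨p, hp1, -, hp3, hp4⟩ := hk k hk2
  rw [F_eval] at hp3 hp4
  have e : ((x : ℤ) + (k : ℤ)) ^ 2 + 1 = (((x + k) ^ 2 + 1 : ℕ) : ℤ) := by push_cast; ring
  rw [e] at hp3 hp4
  have h1 : p ∣ (x + k) ^ 2 + 1 := by exact_mod_cast hp3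
  have h2 : p < (x + k) ^ 2 + 1 := by exact_mod_cast hp4
  rcases (Nat.dvd_prime hp).1 h1 with h3 | h3
  · exact hp1.one_lt.ne' h3
  · omega

lemma P_eq_of_gap {a b : ℕ} (hab : a ≤ b) (h : ∀ n, a < n → n ≤ b → ¬ (n ^ 2 + 1).Prime) :
    P b = P a := by
  unfold P
  congr 1
  ext n
  simp only [mem_filter, mem_Icc]
  constructor
  · rintro ⟨⟨h1, h2⟩, h3⟩
    refine ⟨⟨h1, ?_⟩, h3⟩
    by_contra h4
    exact h n (by omega) h2 h3
  · rintro ⟨⟨h1, h2⟩, h3⟩
    exact ⟨⟨h1, by omega⟩, h3⟩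

/-- the integral of `1 / log t` -/
noncomputable def li (x : ℝ) : ℝ := ∫ t in (2 : ℝ)..x, 1 / Real.log t

lemma li_int {a b : ℝ} (ha : 2 ≤ a) (hb : 2 ≤ b) :
    IntervalIntegrable (fun t : ℝ => 1 / Real.log t) volume a b := by
  apply ContinuousOn.intervalIntegrable
  intro t ht
  have ht2 : 2 ≤ t := by
    rcases le_total a b with h | h
    · rw [Set.uIcc_of_le h] at ht; linarith [ht.1]
    · rw [Set.uIcc_of_ge h] at ht; linarith [ht.1]
  have hl : 0 < Real.log t := Real.log_pos (by linarith)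
  apply ContinuousAt.continuousWithinAt
  exact continuousAt_const.div (Real.continuousAt_log (by linarith)) hl.ne'

lemma li_sub {a b : ℝ} (ha : 2 ≤ a) (hab : a ≤ b) : (b - a) / Real.log b ≤ li b - li a := by
  unfold li
  rw [intervalIntegral.integral_interval_sub_left (li_int le_rfl (ha.trans hab)) (li_int le_rfl ha)]
  have h1 : (b - a) / Real.log b = ∫ _t in a..b, 1 / Real.log b := by
    rw [intervalIntegral.integral_const, smul_eq_mul]; ring
  rw [h1]
  apply intervalIntegral.integral_mono_on hab (by simp) (li_int ha (ha.trans hab))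
  intro t ht
  have hl : 0 < Real.log t := Real.log_pos (by linarith [ht.1])
  exact one_div_le_one_div_of_le hl (Real.log_le_log (by linarith [ht.1]) ht.2)

/-- **Lower bound for the error term.** -/
theorem omega : ∃ c : ℝ, 0 < c ∧ ∃ Y₀ : ℝ, ∀ (C Y : ℝ) (x : ℕ), 0 ≤ C → Y₀ ≤ Y → Y ≤ x →
    ∃ N : ℕ, x ≤ N ∧ (N : ℝ) ≤ x + Y ∧
      c * C * (Real.log Y / Real.log x) * Real.log (Real.log Y) ≤ |(P N : ℝ) - C * li N| := by
  obtain ⟨c, hc, Y₀, h⟩ := gap
  refine ⟨c / 4, by positivity, max Y₀ 3, fun C Y x hC hY hYx => ?_⟩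
  have hY3 : (3 : ℝ) ≤ Y := (le_max_right _ _).trans hY
  obtain ⟨y, hy1, hy2, hy3⟩ := h Y ((le_max_left _ _).trans hY) x hYx
  have hlogY : 1 < Real.log Y := by
    rw [Real.lt_log_iff_exp_lt (by linarith)]
    linarith [Real.exp_one_lt_d9]
  have hllY : 0 < Real.log (Real.log Y) := Real.log_pos hlogY
  set H : ℝ := c * Real.log Y * Real.log (Real.log Y) with hH
  have hH0 : 0 < H := by positivity
  have hx3 : (3 : ℝ) ≤ x := hY3.trans hYx
  set K : ℕ := ⌊H⌋₊ with hK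
  have hK1 : (K : ℝ) ≤ H := Nat.floor_le hH0.le
  have hK2 : H < K + 1 := Nat.lt_floor_add_one H
  have hPab : P (y + K) = P (y - 1) := by
    apply P_eq_of_gap (by omega)
    intro n hn1 hn2
    have h1 : n = y + (n - y) := by omega
    rw [h1]
    apply hy3
    have h2 : n - y ≤ K := by omega
    have h3 : ((n - y : ℕ) : ℝ) ≤ K := by exact_mod_cast h2
    linarith
  have hya : ((y - 1 : ℕ) : ℝ) = y - 1 := by
    rw [Nat.cast_sub (by omega)]; simp
  have hyx : (x : ℝ) ≤ ((y - 1 : ℕ) : ℝ) := by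
    have : x ≤ y - 1 := by omega
    exact_mod_cast this
  have hyb : ((y + K : ℕ) : ℝ) ≤ x + Y := by
    push_cast; linarith
  have hb2 : ((y + K : ℕ) : ℝ) ≤ (x : ℝ) ^ 2 := by
    nlinarith
  have hab : ((y - 1 : ℕ) : ℝ) ≤ ((y + K : ℕ) : ℝ) := by
    have : y - 1 ≤ y + K := by omega
    exact_mod_cast this
  have hlx : 0 < Real.log x := Real.log_pos (by linarith)
  have hlogb : Real.log ((y + K : ℕ) : ℝ) ≤ 2 * Real.log x := by
    have h1 := Real.log_le_log (by linarith) hb2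
    rw [Real.log_pow] at h1
    exact_mod_cast h1
  have hlogb0 : 0 < Real.log ((y + K : ℕ) : ℝ) := Real.log_pos (by linarith)
  have hli := li_sub (a := ((y - 1 : ℕ) : ℝ)) (b := ((y + K : ℕ) : ℝ)) (by linarith) hab
  have hd : H ≤ ((y + K : ℕ) : ℝ) - ((y - 1 : ℕ) : ℝ) := by
    rw [hya]; push_cast; linarith
  have hli2 : H / (2 * Real.log x) ≤ li ((y + K : ℕ) : ℝ) - li ((y - 1 : ℕ) : ℝ) := by
    refine le_trans ?_ hli
    rw [div_le_div_iff₀ (by positivity) hlogb0]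
    nlinarith
  have htar : c / 4 * C * (Real.log Y / Real.log x) * Real.log (Real.log Y) =
      C * (H / (2 * Real.log x)) / 2 := by
    rw [hH]; field_simp; ring
  have hdiff : C * (H / (2 * Real.log x)) ≤
      ((P (y - 1) : ℝ) - C * li ((y - 1 : ℕ) : ℝ)) - ((P (y + K) : ℝ) - C * li ((y + K : ℕ) : ℝ)) := by
    rw [hPab]
    nlinarith [mul_le_mul_of_nonneg_left hli2 hC]
  by_cases hcase : C * (H / (2 * Real.log x)) / 2 ≤ |(P (y + K) : ℝ) - C * li ((y + K : ℕ) : ℝ)|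
  · refine ⟨y + K, ?_, hyb, ?_⟩
    · omega
    · rw [htar]; exact hcase
  · refine ⟨y - 1, by omega, by linarith, ?_⟩
    rw [htar]
    push Not at hcase
    have h1 := neg_abs_le ((P (y + K) : ℝ) - C * li ((y + K : ℕ) : ℝ))
    have h2 := le_abs_self ((P (y - 1) : ℝ) - C * li ((y - 1 : ℕ) : ℝ))
    linarith

end Pool.Agent.Y867
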