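import Pool.Agent.W93.AU14
import Pool.Agent.W93.LM8
import Pool.Agent.TH893.CL.Twist

set_option autoImplicit false

/-! Products of consecutive values of the Liouville function, for sparse families of lengths. -/

namespace Pool.Agent.Y867.SL

open Finset
open Pool.Agent.H373R2.T7 (exI liR)
open Pool.Agent.TH893.CL (Pk twist_le)

/-- The Liouville function along a progression. -/
noncomputable def lr (a b n : ℕ) : ℝ := (-1 : ℝ) ^ ArithmeticFunction.cardFactors (a * n + b)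

lemma lr_pm (a b n : ℕ) : lr a b n = 1 ∨ lr a b n = -1 := neg_one_pow_eq_or ℝ _

lemma lr_abs (a b n : ℕ) : |lr a b n| = 1 := by
  rcases lr_pm a b n with h | h <;> rw [h] <;> norm_num

lemma exI_liR {m : ℤ} {k : ℕ} (hk : 1 ≤ k) (h : m = k) :
    exI liR m = (((-1 : ℝ) ^ ArithmeticFunction.cardFactors k : ℝ) : ℂ) := by
  subst h
  unfold exI liR
  rw [if_pos (by exact_mod_cast hk)]
  simp

lemma sum_Ioc_sub {E : Type*} [AddCommGroup E] (f : ℕ → E) {Y X : ℕ} (h : Y ≤ X) :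
    ∑ n ∈ Ioc Y X, f n = ∑ n ∈ Icc 1 X, f n - ∑ n ∈ Icc 1 Y, f n := by
  have h1 : ∀ Z : ℕ, Icc 1 Z = Ioc 0 Z := by intro Z; ext n; simp only [mem_Icc, mem_Ioc]; omega
  rw [h1, h1, ← sum_Ioc_consecutive f (Nat.zero_le Y) h]
  abel

/-- the product of the values of the Liouville function at `k` consecutive terms of a progression -/
noncomputable def prodL (a b k n : ℕ) : ℝ := ∏ j ∈ range k, (-1 : ℝ) ^ ArithmeticFunction.cardFactors (a * (n + j) + b)

lemma prodL_eq (a b k n : ℕ) : prodL a b k n = Pk (lr a b) k n := rfl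

/-- the real and the imaginary part -/
noncomputable def part (i : ℕ) (z : ℂ) : ℝ := if i = 0 then z.re else z.im

lemma part_abs {z : ℂ} (hz : ‖z‖ ≤ 1) (i : ℕ) : |part i z| ≤ 1 := by
  unfold part
  split_ifs
  · exact (Complex.abs_re_le_norm _).trans hz
  · exact (Complex.abs_im_le_norm _).trans hz

/-- the weights of the correlations, on the multiples of `a` -/
noncomputable def G (a b : ℕ) (ξ : ℕ → ℂ) (i j m : ℕ) : ℂ :=
  if a ∣ m then ((part i (ξ (m / a)) * part j (ξ (m / a + 1)) * lr a b (m / a) : ℝ) : ℂ) else 0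

lemma G_norm (a b : ℕ) {ξ : ℕ → ℂ} (hξ : ∀ n, ‖ξ n‖ ≤ 1) (i j m : ℕ) : ‖G a b ξ i j m‖ ≤ 1 := by
  unfold G
  split_ifs
  · rw [Complex.norm_real, Real.norm_eq_abs, abs_mul, abs_mul, lr_abs, mul_one]
    exact mul_le_one₀ (part_abs (hξ _) _) (abs_nonneg _) (part_abs (hξ _) _)
  · simp

lemma sum_mult {a : ℕ} (ha : 1 ≤ a) (h : ℕ → ℂ) (X : ℕ) :
    ∑ m ∈ Icc 1 (a * X), (if a ∣ m then h (m / a) else 0) = ∑ n ∈ Icc 1 X, h n := by
  rw [← sum_filter]
  symm
  apply sum_bij (fun n _ => a * n)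
  · intro n hn
    rw [mem_Icc] at hn
    rw [mem_filter, mem_Icc]
    exact ⟨⟨Nat.mul_pos ha hn.1, Nat.mul_le_mul_left a hn.2⟩, dvd_mul_right _ _⟩
  · intro n _ m _ h
    exact Nat.eq_of_mul_eq_mul_left ha h
  · intro m hm
    rw [mem_filter, mem_Icc] at hm
    obtain ⟨⟨h1, h2⟩, n, rfl⟩ := hm
    refine ⟨n, mem_Icc.2 ⟨?_, Nat.le_of_mul_le_mul_left h2 ha⟩, rfl⟩
    rcases Nat.eq_zero_or_pos n with h0 | h0
    · subst h0; omega
    · exact h0
  · intro n _
    rw [Nat.mul_div_cancel_left _ ha]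

/-- the correlations on the multiples of `a` -/
lemma corr_eq {a : ℕ} (ha : 1 ≤ a) (b : ℕ) (ξ : ℕ → ℂ) (i j k X : ℕ) (e : ℤ) (he : e = b + a * k) :
    ∑ m ∈ Icc 1 (a * X), G a b ξ i j m * exI liR ((m : ℤ) + e) =
      ∑ n ∈ Icc 1 X, (((part i (ξ n) * part j (ξ (n + 1)) * lr a b n) * lr a b (n + k) : ℝ) : ℂ) := by
  rw [← sum_mult ha (fun n => (((part i (ξ n) * part j (ξ (n + 1)) * lr a b n) * lr a b (n + k) : ℝ) : ℂ))]
  apply sum_congr rfl
  intro m hm
  rw [mem_Icc] at hm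
  unfold G
  split_ifs with h
  · obtain ⟨n, rfl⟩ := h
    rw [Nat.mul_div_cancel_left _ ha]
    have h1 : 1 ≤ a * (n + k) + b := by
      have : a * (n + k) = a * n + a * k := by ring
      omega
    rw [exI_liR (k := a * (n + k) + b) h1 (by rw [he]; push_cast; ring)]
    unfold lr
    push_cast
    ring
  · rw [zero_mul]

/-- The pairing of neighbouring products: four correlations imply the bound with one half. -/
lemma half_of_corr {a : ℕ} (ha : 1 ≤ a) (b k N : ℕ) (e : ℤ) (he : e = b + a * k) {ξ : ℕ → ℂ} (hξ : ∀ n, ‖ξ n‖ ≤ 1)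
    {M : ℝ} (h : ∀ i < 2, ∀ j < 2, ∀ N' ≤ a * N, ‖∑ m ∈ Icc 1 N', G a b ξ i j m * exI liR ((m : ℤ) + e)‖ ≤ M)
    {Y X : ℕ} (hYX : Y ≤ X) (hX : X ≤ N) :
    ‖∑ n ∈ Ioc Y X, ξ n * (prodL a b k n : ℂ)‖ ≤ ((X : ℝ) - Y) / 2 + 4 * M + 1 := by
  have key : ∀ i < 2, ∀ j < 2,
      |∑ n ∈ Ioc Y X, ((part i (ξ n) * part j (ξ (n + 1)) * lr a b n) * lr a b (n + k))| ≤ 2 * M := by
    intro i hi j hj
    have h1 := h i hi j hj (a * X) (Nat.mul_le_mul_left a hX)
    have h2 := h i hi j hj (a * Y) (Nat.mul_le_mul_left a (hYX.trans hX))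
    rw [corr_eq ha b ξ i j k _ e he] at h1 h2
    have h3 := sum_Ioc_sub
      (fun n => (((part i (ξ n) * part j (ξ (n + 1)) * lr a b n) * lr a b (n + k) : ℝ) : ℂ)) hYX
    have h4 : ‖∑ n ∈ Ioc Y X, (((part i (ξ n) * part j (ξ (n + 1)) * lr a b n) * lr a b (n + k) : ℝ) : ℂ)‖ ≤ 2 * M := by
      rw [h3]
      refine (norm_sub_le _ _).trans ?_
      linarith
    rw [← Complex.ofReal_sum, Complex.norm_real, Real.norm_eq_abs] at h4
    exact h4
  have h1 := twist_le (l := lr a b) (lr_pm a b) k hξ hYX (key 0 (by norm_num) 0 (by norm_num))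
    (key 0 (by norm_num) 1 (by norm_num)) (key 1 (by norm_num) 0 (by norm_num)) (key 1 (by norm_num) 1 (by norm_num))
  have h2 : ∀ n, prodL a b k n = Pk (lr a b) k n := fun n => rfl
  simp only [h2]
  linarith

open Classical in
/-- Lengths in an automatic set. -/
theorem auto {σ : Type} [Finite σ] (b : ℕ) (hb : 2 ≤ b) (M : DFA ℕ σ)
    (hM : ∀ k : ℕ, ∃ᶠ N : ℕ in Filter.atTop,
      Real.log N ^ k < (((range N).filter fun v => Nat.digits b v ∈ M.accepts).card : ℝ))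
    (a : ℕ) (ha : 1 ≤ a) (B T U : ℕ) :
    ∃ N₀ : ℕ, ∀ N, N₀ ≤ N → ∀ c : ℕ, c ≤ B * N →
      ∀ L : ℕ, (L : ℝ) ≤ Real.log N ^ T → ∀ ξ : Fin L → ℕ → ℂ, (∀ l n, ‖ξ l n‖ ≤ 1) →
        (((range N).filter fun v => Nat.digits b v ∈ M.accepts ∧ ¬ ∀ l, ∀ Y X : ℕ, Y ≤ X → X ≤ B * N →
          ‖∑ n ∈ Ioc Y X, ξ l n * (prodL a c v n : ℂ)‖ ≤ ((X : ℝ) - Y) / 2 + N / Real.log N ^ U).card : ℝ) ≤
          (((range N).filter fun v => Nat.digits b v ∈ M.accepts).card : ℝ) / Real.log N ^ U := by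
  have := Fintype.ofFinite σ
  obtain ⟨N₀, h⟩ := Pool.Agent.W93.AU.au_corr b hb M hM liR Pool.Agent.W93.LM.nice_liR (a : ℤ)
    (by exact_mod_cast (by omega : a ≠ 0)) (a * B) (T + 1) (U + 1)
  obtain ⟨N1, hN1⟩ : ∃ N1 : ℕ, ∀ N : ℕ, N1 ≤ N → 5 ≤ Real.log N ∧ 5 * Real.log N ^ U ≤ N := by
    have e1 : ∀ᶠ N : ℕ in Filter.atTop, 5 ≤ Real.log N :=
      (Real.tendsto_log_atTop.comp tendsto_natCast_atTop_atTop).eventually_ge_atTop 5
    have e2 : ∀ᶠ N : ℕ in Filter.atTop, 5 * Real.log N ^ U ≤ N := by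
      have h2 := (Real.isLittleO_pow_log_id_atTop (n := U)).comp_tendsto tendsto_natCast_atTop_atTop
      have h3 := h2.def (c := 1 / 5) (by norm_num)
      filter_upwards [h3, Filter.eventually_ge_atTop 1] with N hN hN1
      simp only [Function.comp, id] at hN
      have hl : 0 ≤ Real.log (N : ℝ) := Real.log_natCast_nonneg N
      rw [Real.norm_of_nonneg (by positivity), Real.norm_of_nonneg (by positivity)] at hN
      linarith
    obtain ⟨N1, h1⟩ := Filter.eventually_atTop.1 (e1.and e2)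
    exact ⟨N1, h1⟩
  refine ⟨N₀ + N1, fun N hN c hc L hL ξ hξ => ?_⟩
  obtain ⟨hlog5, hlogN⟩ := hN1 N (by omega)
  have hlog0 : 0 < Real.log N := by linarith
  have hlog1 : 1 ≤ Real.log N := by linarith
  have h4L : ((4 * L : ℕ) : ℝ) ≤ Real.log N ^ (T + 1) := by
    push_cast
    rw [pow_succ]
    nlinarith [Nat.cast_nonneg (α := ℝ) L, pow_pos hlog0 T]
  have h1 := h N (by omega) (c : ℤ) (by
    rw [Nat.abs_cast]
    have : c ≤ a * B * N := hc.trans (by nlinarith [Nat.zero_le (B * N)])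
    exact_mod_cast this) (4 * L) h4L
    (fun l => if h : l / 4 < L then G a c (ξ ⟨l / 4, h⟩) (l % 4 / 2) (l % 2) else fun _ => 0) (by
      intro l hl n _ _
      have h2 : l / 4 < L := by omega
      simp only [h2, dif_pos]
      exact (G_norm a c (hξ _) _ _ n).trans (one_le_pow₀ hlog1))
    (fun v => ¬ ∀ l, ∀ Y X : ℕ, Y ≤ X → X ≤ B * N →
          ‖∑ n ∈ Ioc Y X, ξ l n * (prodL a c v n : ℂ)‖ ≤ ((X : ℝ) - Y) / 2 + N / Real.log N ^ U) (by
    intro v hv
    by_contra hcon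
    push Not at hcon
    apply hv
    intro l Y X hYX hX
    have h2 := half_of_corr ha c v (B * N) ((c : ℤ) + (a : ℤ) * v) rfl (hξ l)
      (M := N / Real.log N ^ (U + 1)) (by
      intro i hi j hj N' hN'
      have h3 : 4 * (l : ℕ) + (2 * i + j) < 4 * L := by have := l.2; omega
      have h4 := hcon (4 * (l : ℕ) + (2 * i + j)) h3 N' (by rw [mul_assoc]; exact hN')
      have e1 : (4 * (l : ℕ) + (2 * i + j)) / 4 = l := by omega
      have e2 : (4 * (l : ℕ) + (2 * i + j)) % 4 / 2 = i := by omega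
      have e3 : (4 * (l : ℕ) + (2 * i + j)) % 2 = j := by omega
      rw [e2, e3] at h4
      have e4 : ∀ m, (if h : (4 * (l : ℕ) + (2 * i + j)) / 4 < L then
          G a c (ξ ⟨(4 * (l : ℕ) + (2 * i + j)) / 4, h⟩) i j else fun _ => 0) m = G a c (ξ l) i j m := by
        intro m
        rw [dif_pos (by rw [e1]; exact l.2)]
        congr 2
        exact Fin.ext e1
      simp only [e4] at h4
      exact h4) hYX hX
    refine h2.trans ?_
    have e5 : (4 : ℝ) * (N / Real.log N ^ (U + 1)) + 1 ≤ N / Real.log N ^ U := by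
      have e6 : (0 : ℝ) < Real.log N ^ U := by positivity
      have e7 : (5 : ℝ) ≤ N / Real.log N ^ U := by
        rw [le_div_iff₀ e6]; exact hlogN
      have e8 : (N : ℝ) / Real.log N ^ (U + 1) = N / Real.log N ^ U / Real.log N := by
        rw [pow_succ, div_div]
      rw [e8]
      have e9 : (N : ℝ) / Real.log N ^ U / Real.log N ≤ N / Real.log N ^ U / 5 :=
        div_le_div_of_nonneg_left (by positivity) (by norm_num) hlog5
      linarith
    linarith)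
  refine le_trans (le_of_eq ?_) (h1.trans ?_)
  · congr 2
    ext v
    simp only [mem_filter]
  · apply div_le_div_of_nonneg_left (by positivity) (by positivity)
    exact pow_le_pow_right₀ hlog1 (by omega)

open Pool.Agent.W93.RD (val Str pw)

open Classical in
/-- Lengths with independent random digits. -/
theorem rand (b H B T U : ℕ) (hb : 2 ≤ b) (η : ℝ) (hη : 0 < η) :
    ∃ K₀ : ℕ, ∀ K : ℕ, K₀ ≤ K → ∀ w : ℕ → ℕ → ℝ,
      (∀ j < K, (∀ x, 0 ≤ w j x ∧ w j x ≤ 1 - η) ∧ ∑ x ∈ range H, w j x = 1) →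
      ∀ c m : ℕ, c ≤ B * b ^ K → m ≤ B * b ^ K →
      ∀ L : ℕ, L ≤ K ^ T → ∀ ξ : Fin L → ℕ → ℂ, (∀ l n, ‖ξ l n‖ ≤ 1) →
        ∑ d ∈ Str H K, (if ¬ ∀ l, ∀ Y X : ℕ, Y ≤ X → X ≤ B * b ^ K →
          ‖∑ n ∈ Ioc Y X, ξ l n * (prodL 1 c (m + val b d) n : ℂ)‖ ≤
            ((X : ℝ) - Y) / 2 + (b : ℝ) ^ K / (K : ℝ) ^ U then pw w d else 0) ≤ 1 / (K : ℝ) ^ U := by
  rcases lt_or_ge 1 η with hη1 | hη1
  · refine ⟨1, fun k hk w hw _ _ _ _ _ _ _ _ => ?_⟩
    exfalso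
    obtain ⟨h1, h2⟩ := (hw 0 (by omega)).1 0
    linarith
  obtain ⟨k₀, h0⟩ := Pool.Agent.W93.LM.lm_prob b H (2 * B) hb η hη hη1 liR
    Pool.Agent.W93.LM.nice_liR (T + 1) (U + 1)
  obtain ⟨k1, hk1⟩ : ∃ k1 : ℕ, ∀ k : ℕ, k1 ≤ k → 5 * (k : ℝ) ^ U ≤ (b : ℝ) ^ k := by
    have hlim := isLittleO_pow_const_const_pow_of_one_lt (R := ℝ) U (r := (b : ℝ)) (by exact_mod_cast (by omega : 1 < b))
    have h2 := hlim.def (c := 1 / 5) (by norm_num)
    rw [Filter.eventually_atTop] at h2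
    obtain ⟨k2, hk2⟩ := h2
    refine ⟨k2, fun k hk => ?_⟩
    have h3 := hk2 k hk
    rw [Real.norm_of_nonneg (by positivity), Real.norm_of_nonneg (by positivity)] at h3
    linarith
  refine ⟨k₀ + k1 + 5, fun K hK w hw c m hc hm L hL ξ hξ => ?_⟩
  have hK5 : (5 : ℝ) ≤ K := by exact_mod_cast (by omega : 5 ≤ K)
  have hKU : 5 * (K : ℝ) ^ U ≤ (b : ℝ) ^ K := hk1 K (by omega)
  have hK1 : (1 : ℝ) ≤ (K : ℝ) := by linarith
  have hK0 : (0 : ℝ) < (K : ℝ) := by linarith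
  have h4L : ((4 * L : ℕ) : ℝ) ≤ (K : ℝ) ^ (T + 1) := by
    have : 4 * L ≤ K ^ (T + 1) := by
      rw [pow_succ, mul_comm]
      exact Nat.mul_le_mul hL (by omega)
    exact_mod_cast this
  have h1 := h0 K (by omega) w (fun j hj x => ((hw j hj).1 x).1) (fun j hj x => ((hw j hj).1 x).2)
    (fun j hj => (hw j hj).2) ((c : ℤ) + m) (by
      rw [abs_of_nonneg (by positivity)]
      have : c + m ≤ 2 * B * b ^ K := by nlinarith
      exact_mod_cast this) (4 * L) h4L (fun _ => 1)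
    (fun l => if h : l / 4 < L then G 1 c (ξ ⟨l / 4, h⟩) (l % 4 / 2) (l % 2) else fun _ => 0) (fun _ _ => le_rfl) (by
      intro l hl n _ _
      have h2 : l / 4 < L := by omega
      simp only [h2, dif_pos]
      exact (G_norm 1 c (hξ _) _ _ n).trans (one_le_pow₀ hK1))
    (fun d => ¬ ∀ l, ∀ Y X : ℕ, Y ≤ X → X ≤ B * b ^ K →
          ‖∑ n ∈ Ioc Y X, ξ l n * (prodL 1 c (m + val b d) n : ℂ)‖ ≤
            ((X : ℝ) - Y) / 2 + (b : ℝ) ^ K / (K : ℝ) ^ U) (by
    intro d hd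
    by_contra hcon
    push Not at hcon
    apply hd
    intro l Y X hYX hX
    have h2 := half_of_corr (a := 1) le_rfl c (m + val b d) (B * b ^ K) ((c : ℤ) + m + val b d)
      (by push_cast; ring) (hξ l) (M := (b : ℝ) ^ K / (K : ℝ) ^ (U + 1)) (by
      intro i hi j hj N' hN'
      have h3 : 4 * (l : ℕ) + (2 * i + j) < 4 * L := by have := l.2; omega
      have h4 := hcon (4 * (l : ℕ) + (2 * i + j)) h3 N' (by nlinarith)
      have e1 : (4 * (l : ℕ) + (2 * i + j)) / 4 = l := by omega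
      have e2 : (4 * (l : ℕ) + (2 * i + j)) % 4 / 2 = i := by omega
      have e3 : (4 * (l : ℕ) + (2 * i + j)) % 2 = j := by omega
      rw [e2, e3] at h4
      have e4 : ∀ m, (if h : (4 * (l : ℕ) + (2 * i + j)) / 4 < L then
          G 1 c (ξ ⟨(4 * (l : ℕ) + (2 * i + j)) / 4, h⟩) i j else fun _ => 0) m = G 1 c (ξ l) i j m := by
        intro m
        rw [dif_pos (by rw [e1]; exact l.2)]
        congr 2
        exact Fin.ext e1
      simp only [e4, one_mul] at h4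
      refine le_trans (le_of_eq ?_) h4
      congr 1) hYX hX
    refine h2.trans ?_
    have e5 : (4 : ℝ) * ((b : ℝ) ^ K / (K : ℝ) ^ (U + 1)) + 1 ≤ (b : ℝ) ^ K / (K : ℝ) ^ U := by
      have e6 : (0 : ℝ) < (K : ℝ) ^ U := by positivity
      have e7 : (5 : ℝ) ≤ (b : ℝ) ^ K / (K : ℝ) ^ U := by
        rw [le_div_iff₀ e6]; exact hKU
      have e8 : (b : ℝ) ^ K / (K : ℝ) ^ (U + 1) = (b : ℝ) ^ K / (K : ℝ) ^ U / K := by
        rw [pow_succ, div_div]
      rw [e8]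
      have e9 : (b : ℝ) ^ K / (K : ℝ) ^ U / K ≤ (b : ℝ) ^ K / (K : ℝ) ^ U / 5 :=
        div_le_div_of_nonneg_left (by positivity) (by norm_num) hK5
      linarith
    linarith)
  refine le_trans (le_of_eq ?_) (h1.trans ?_)
  · apply sum_congr rfl
    intro d _
    split_ifs <;> rfl
  · apply div_le_div_of_nonneg_left (by positivity) (by positivity)
    exact pow_le_pow_right₀ hK1 (by omega)

end Pool.Agent.Y867.SL
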